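import Mathlib
import Pool.Agent.Lib.P0c8ca5H.Defs
import Pool.Agent.Lib.P0c8ca5G.OmB

/-!
# Module IsoA: moves of the sums over the cosets

`T1 p M D f x (y * x) = T1 p M D f x y` and `T1 p M D f y⁻¹ x = T1 p M D f x y` for a normal subgroup `M`.
-/

set_option autoImplicit false

namespace Pool.Agent.Lib.P0c8ca5.Mm

open MonoidAlgebra Ps Bq Zz Gg Hh

variable {p : ℕ} {k : Type*} [Field k] {A : Type*} [Group A]

namespace IsoAAux

theorem stab_le_normalizer {M : Subgroup A} (hM : M.Normal) (σ : Finset (Subgroup A)) :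
    stab ⊤ σ ≤ Subgroup.normalizer (stab M σ : Set A) := by
  have key : ∀ g ∈ stab ⊤ σ, ∀ x ∈ stab M σ, g * x * g⁻¹ ∈ stab M σ := by
    intro g hg x hx
    rw [mem_stab] at hx hg ⊢
    refine ⟨hM.conj_mem x hx.1 g, fun Q hQ => ?_⟩
    exact mul_mem (mul_mem (hg.2 Q hQ) (hx.2 Q hQ)) (inv_mem (hg.2 Q hQ))
  intro g hg
  rw [Subgroup.mem_normalizer_iff]
  intro x
  constructor
  · exact key g hg x
  · intro hx
    have h1 := key g⁻¹ (inv_mem hg) _ hx
    have e : g⁻¹ * (g * x * g⁻¹) * g⁻¹⁻¹ = x := by group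
    rwa [e] at h1

theorem out_irr {N : Subgroup A} {f : MonoidAlgebra k A} (c : IrX N f) :
    Irr' (Quotient.out c).ρ := irr_iff.1 (Quotient.out c).irr

variable {N : Subgroup A} {n : ℕ} {ρ : Rp k N n} {x y : A}

/-- the symbol of `x` and `y x` -/
theorem om_mul_self [IsAlgClosed k] (hρ : Irr' ρ) (hx : x ∈ Subgroup.normalizer (N : Set A))
    (hy : y ∈ Subgroup.normalizer (N : Set A)) : om N ρ x (y * x) = om N ρ x y := by
  have key : ∀ {y : A}, y ∈ Subgroup.normalizer (N : Set A) → om N ρ x y ≠ 0 →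
      om N ρ x (y * x) = om N ρ x y := by
    intro y hy h
    obtain ⟨X, Y, z, hX, hY, hz, h1⟩ := om_spec h
    refine om_eq hρ hx (mul_mem hy hx) ⟨X, X.trans Y, z, hX, hY.mul hy hx hX, ?_, fun v => ?_⟩
    · rw [hz]
      group
    · simp only [LinearEquiv.trans_apply]
      exact h1 (X v)
  have key2 : ∀ {y : A}, y ∈ Subgroup.normalizer (N : Set A) → om N ρ x y ≠ 0 →
      om N ρ x (y * x⁻¹) = om N ρ x y := by
    intro y hy h
    obtain ⟨X, Y, z, hX, hY, hz, h1⟩ := om_spec h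
    refine om_eq hρ hx (mul_mem hy (inv_mem hx))
      ⟨X, X.symm.trans Y, z, hX, hY.mul hy (inv_mem hx) (hX.inv hx), ?_, fun v => ?_⟩
    · rw [hz]
      group
    · have h2 := h1 (X.symm v)
      simp only [LinearEquiv.trans_apply, LinearEquiv.apply_symm_apply,
        LinearEquiv.symm_apply_apply] at h2 ⊢
      exact h2
  by_cases h : om N ρ x y = 0
  · rw [h]
    by_contra hcon
    have h1 := key2 (mul_mem hy hx) hcon
    rw [mul_inv_cancel_right, h] at h1
    exact hcon h1.symm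
  · exact key hy h

/-- the symbol of `x` and `y⁻¹` -/
theorem om_inv_right [IsAlgClosed k] (hρ : Irr' ρ) (hx : x ∈ Subgroup.normalizer (N : Set A))
    (hy : y ∈ Subgroup.normalizer (N : Set A)) : om N ρ x y⁻¹ = (om N ρ x y)⁻¹ := by
  have key : ∀ {y : A}, y ∈ Subgroup.normalizer (N : Set A) → om N ρ x y ≠ 0 →
      om N ρ x y⁻¹ = (om N ρ x y)⁻¹ := by
    intro y hy h
    obtain ⟨hX, ⟨Y, hY⟩, hz⟩ := (om_ne_zero_iff hρ hx hy).1 h
    have h1 : om N ρ x y⁻¹ ≠ 0 := by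
      rw [om_ne_zero_iff hρ hx (inv_mem hy)]
      refine ⟨hX, ⟨_, hY.inv hy⟩, ?_⟩
      have h2 := (Subgroup.mem_normalizer_iff.1 (inv_mem hy) _).1 (N.inv_mem hz)
      have e : y⁻¹ * (y * x * y⁻¹ * x⁻¹)⁻¹ * y⁻¹⁻¹ = y⁻¹ * x * y⁻¹⁻¹ * x⁻¹ := by group
      rwa [e] at h2
    have h3 := om_mul_right hρ hx hy (inv_mem hy) h h1
    rw [mul_inv_cancel, om_mem_right hρ hx hX N.one_mem] at h3
    exact eq_inv_of_mul_eq_one_right h3.symm
  by_cases h : om N ρ x y = 0
  · rw [h, inv_zero]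
    by_contra hcon
    have h1 := key (inv_mem hy) hcon
    rw [inv_inv, h] at h1
    exact inv_ne_zero hcon h1.symm
  · exact key hy h

/-- the symbol of `y⁻¹` and `x` -/
theorem om_inv_swap [IsAlgClosed k] (hρ : Irr' ρ) (hx : x ∈ Subgroup.normalizer (N : Set A))
    (hy : y ∈ Subgroup.normalizer (N : Set A)) : om N ρ y⁻¹ x = om N ρ x y := by
  rw [om_symm hρ hx (inv_mem hy), om_inv_right hρ hx hy, inv_inv]

end IsoAAux

open IsoAAux

theorem dl_mul_self [Fact p.Prime] [IsAlgClosed k] [Fintype A] {M : Subgroup A} (hM : M.Normal)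
    (D : Finset (Subgroup A)) (f : MonoidAlgebra k A) (x y : A) :
    dl p M D f x (y * x) = dl p M D f x y := by
  classical
  unfold dl
  have e : (Ch D).filter (fun σ => x ∈ stab ⊤ σ ∧ y * x ∈ stab ⊤ σ)
      = (Ch D).filter (fun σ => x ∈ stab ⊤ σ ∧ y ∈ stab ⊤ σ) := by
    apply Finset.filter_congr
    intro σ _
    constructor
    · rintro ⟨h1, h2⟩
      exact ⟨h1, ((stab ⊤ σ).mul_mem_cancel_right h1).1 h2⟩
    · rintro ⟨h1, h2⟩
      exact ⟨h1, mul_mem h2 h1⟩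
  rw [e]
  refine Finset.sum_congr rfl fun σ hσ => ?_
  rw [Finset.mem_filter] at hσ
  obtain ⟨-, hx, hy⟩ := hσ
  congr 1
  refine finsum_congr fun c => ?_
  congr 1
  exact om_mul_self (out_irr c) (stab_le_normalizer hM σ hx) (stab_le_normalizer hM σ hy)

theorem dl_inv_swap [Fact p.Prime] [IsAlgClosed k] [Fintype A] {M : Subgroup A} (hM : M.Normal)
    (D : Finset (Subgroup A)) (f : MonoidAlgebra k A) (x y : A) :
    dl p M D f y⁻¹ x = dl p M D f x y := by
  classical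
  unfold dl
  have e : (Ch D).filter (fun σ => y⁻¹ ∈ stab ⊤ σ ∧ x ∈ stab ⊤ σ)
      = (Ch D).filter (fun σ => x ∈ stab ⊤ σ ∧ y ∈ stab ⊤ σ) := by
    apply Finset.filter_congr
    intro σ _
    rw [inv_mem_iff, and_comm]
  rw [e]
  refine Finset.sum_congr rfl fun σ hσ => ?_
  rw [Finset.mem_filter] at hσ
  obtain ⟨-, hx, hy⟩ := hσ
  congr 1
  refine finsum_congr fun c => ?_
  congr 1
  exact om_inv_swap (out_irr c) (stab_le_normalizer hM σ hx) (stab_le_normalizer hM σ hy)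

/-- `(x, y)` can be replaced by `(x, y x)` and by `(y⁻¹, x)` -/
theorem T1_mul_self [Fact p.Prime] [IsAlgClosed k] [Fintype A] {M : Subgroup A} (hM : M.Normal)
    (D : Finset (Subgroup A)) (f : MonoidAlgebra k A) (x y : A) :
    T1 p M D f x (y * x) = T1 p M D f x y := by
  unfold T1
  refine Finset.sum_congr rfl fun u hu => ?_
  rw [mem_csF] at hu
  refine Finset.sum_nbij' (fun v => v * u⁻¹) (fun v => v * u) ?_ ?_ ?_ ?_ ?_
  · intro v hv
    rw [mem_csF] at hv ⊢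
    have h1 := hM.conj_mem _ (inv_mem hu) y
    have e : v * u⁻¹ * y⁻¹ = v * (y * x)⁻¹ * (y * (u * x⁻¹)⁻¹ * y⁻¹) := by group
    rw [e]
    exact mul_mem hv h1
  · intro v hv
    rw [mem_csF] at hv ⊢
    have h1 := hM.conj_mem _ hu y
    have e : v * u * (y * x)⁻¹ = v * y⁻¹ * (y * (u * x⁻¹) * y⁻¹) := by group
    rw [e]
    exact mul_mem hv h1
  · intro v _
    show v * u⁻¹ * u = v
    group
  · intro v _
    show v * u * u⁻¹ = v
    group
  · intro v _
    show dl p M D f u v = dl p M D f u (v * u⁻¹)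
    rw [← dl_mul_self hM D f u (v * u⁻¹), inv_mul_cancel_right]

theorem T1_inv_swap [Fact p.Prime] [IsAlgClosed k] [Fintype A] {M : Subgroup A} (hM : M.Normal)
    (D : Finset (Subgroup A)) (f : MonoidAlgebra k A) (x y : A) :
    T1 p M D f y⁻¹ x = T1 p M D f x y := by
  unfold T1
  rw [Finset.sum_comm]
  refine Finset.sum_congr rfl fun u _ => ?_
  refine Finset.sum_nbij' (fun v => v⁻¹) (fun v => v⁻¹) ?_ ?_ ?_ ?_ ?_
  · intro v hv
    rw [mem_csF] at hv ⊢
    have h1 := hM.conj_mem _ (inv_mem hv) y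
    have e : v⁻¹ * y⁻¹ = y * (v * y⁻¹⁻¹)⁻¹ * y⁻¹ := by group
    rw [e]
    exact h1
  · intro v hv
    rw [mem_csF] at hv ⊢
    have h1 := hM.conj_mem _ (inv_mem hv) y⁻¹
    have e : v⁻¹ * y⁻¹⁻¹ = y⁻¹ * (v * y⁻¹)⁻¹ * y⁻¹⁻¹ := by group
    rw [e]
    exact h1
  · intro v _
    exact inv_inv v
  · intro v _
    exact inv_inv v
  · intro v _
    show dl p M D f v u = dl p M D f u v⁻¹
    rw [← dl_inv_swap hM D f u v⁻¹, inv_inv]

theorem T1_moves [Fact p.Prime] [IsAlgClosed k] [Fintype A] {M : Subgroup A} (hM : M.Normal)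
    (D : Finset (Subgroup A)) (f : MonoidAlgebra k A) (x y : A) :
    T1 p M D f x (y * x) = T1 p M D f x y ∧ T1 p M D f y⁻¹ x = T1 p M D f x y :=
  ⟨T1_mul_self hM D f x y, T1_inv_swap hM D f x y⟩

end Pool.Agent.Lib.P0c8ca5.Mm
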