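import Mathlib
import Pool.Agent.Lib.P0c8ca5M.IsoA
import Pool.Agent.Lib.P0c8ca5G.PrC
import Pool.Agent.Lib.P0c8ca5G.SitA

/-!
# Module IsoB: the equality from the vanishing of the sums over the cosets

`M` is a normal subgroup of `A` with abelian factor group of order prime to `p`, `b` a block of `A` in `kM`, `H ≥ M` of prime index.  If
`T1 p M D b x y = 0` for the pairs which do not generate `A` modulo `M`, and for the pairs with `x ∉ H`, `y ∈ H`, then the equality
holds for `b`.
-/

set_option autoImplicit false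

namespace Pool.Agent.Lib.P0c8ca5.Mm

open MonoidAlgebra Ps Bq Zz Gg Hh

universe u v

variable {p : ℕ} {k : Type v} [Field k] {A : Type u} [Group A]

namespace IsoBAux

/-- `x ∉ H`, `H` of prime index, `A / H` abelian: every element is in `H` up to a power of `x` -/
theorem exists_pow [Finite A] {H : Subgroup A} (hHp : H.index.Prime) (hN : H.Normal) {x : A}
    (hx : x ∉ H) (y : A) : ∃ j : ℕ, y * x ^ j ∈ H := by
  have := hN
  have hcard : Nat.card (A ⧸ H) = H.index := rfl
  have hord : orderOf (QuotientGroup.mk (s := H) x) = H.index := by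
    have h1 : orderOf (QuotientGroup.mk (s := H) x) ∣ H.index := by
      rw [← hcard]
      exact orderOf_dvd_natCard _
    rcases (Nat.dvd_prime hHp).1 h1 with h2 | h2
    · exfalso
      rw [orderOf_eq_one_iff, QuotientGroup.eq_one_iff] at h2
      exact hx h2
    · exact h2
  have hfin : Finite (A ⧸ H) := inferInstance
  have htop : Subgroup.zpowers (QuotientGroup.mk (s := H) x) = ⊤ := by
    apply Subgroup.eq_top_of_card_eq
    rw [Nat.card_zpowers, hord, hcard]
  have hmem : (QuotientGroup.mk (s := H) y)⁻¹ ∈ Subgroup.zpowers (QuotientGroup.mk (s := H) x) := by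
    rw [htop]
    exact Subgroup.mem_top _
  rw [← mem_powers_iff_mem_zpowers, Submonoid.mem_powers_iff] at hmem
  obtain ⟨j, hj⟩ := hmem
  refine ⟨j, ?_⟩
  rw [← QuotientGroup.eq_one_iff, QuotientGroup.mk_mul, QuotientGroup.mk_pow, hj,
    mul_inv_cancel]

theorem T1_pow [Fact p.Prime] [IsAlgClosed k] [Fintype A] {M : Subgroup A} (hM : M.Normal)
    (D : Finset (Subgroup A)) (f : MonoidAlgebra k A) (x y : A) (j : ℕ) :
    T1 p M D f x (y * x ^ j) = T1 p M D f x y := by
  induction j with
  | zero => rw [pow_zero, mul_one]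
  | succ j ih => rw [pow_succ, ← mul_assoc, T1_mul_self hM, ih]

open Classical in
/-- the sum over all pairs of the sums over the cosets -/
theorem sum_T1 [Fact p.Prime] [Fintype A] (M : Subgroup A)
    (D : Finset (Subgroup A)) (f : MonoidAlgebra k A) :
    ∑ x : A, ∑ y : A, T1 p M D f x y
      = (Nat.card M : WittVector p k) * ((Nat.card M : WittVector p k) *
        ∑ u : A, ∑ v : A, dl p M D f u v) := by
  have hc : ∀ u : A, (Finset.univ.filter (fun x : A => u ∈ csF M x)).card = Nat.card M := by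
    intro u
    rw [Nat.card_eq_fintype_card, ← Finset.card_univ]
    symm
    refine Finset.card_bij (fun m _ => (m : A)⁻¹ * u) ?_ ?_ ?_
    · intro m _
      rw [Finset.mem_filter, mem_csF]
      refine ⟨Finset.mem_univ _, ?_⟩
      have e : u * ((m : A)⁻¹ * u)⁻¹ = m := by group
      rw [e]
      exact m.2
    · intro m _ m' _ h
      exact Subtype.ext (inv_injective (mul_right_cancel h))
    · intro x hx
      rw [Finset.mem_filter, mem_csF] at hx
      refine ⟨⟨u * x⁻¹, hx.2⟩, Finset.mem_univ _, ?_⟩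
      show (u * x⁻¹)⁻¹ * u = x
      group
  have key : ∀ g : A → WittVector p k,
      ∑ x : A, ∑ u ∈ csF M x, g u = (Nat.card M : WittVector p k) * ∑ u : A, g u := by
    intro g
    have h1 : ∀ x : A, ∑ u ∈ csF M x, g u = ∑ u : A, if u ∈ csF M x then g u else 0 := by
      intro x
      rw [← Finset.sum_filter]
      congr 1
      ext u
      simp
    rw [Finset.sum_congr rfl fun x _ => h1 x, Finset.sum_comm, Finset.mul_sum]
    refine Finset.sum_congr rfl fun u _ => ?_
    rw [← Finset.sum_filter, Finset.sum_const, hc u, nsmul_eq_mul]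
  unfold T1
  have h2 : ∀ x : A, ∑ y : A, ∑ u ∈ csF M x, ∑ v ∈ csF M y, dl p M D f u v
      = ∑ u ∈ csF M x, (Nat.card M : WittVector p k) * ∑ v : A, dl p M D f u v := by
    intro x
    rw [Finset.sum_comm]
    exact Finset.sum_congr rfl fun u _ => key _
  rw [Finset.sum_congr rfl fun x _ => h2 x, key, ← Finset.mul_sum]

end IsoBAux

open IsoBAux

theorem Sit.navarro_of_T1 [Fact p.Prime] [CharP k p] [IsAlgClosed k] [Fintype A]
    {V M : Subgroup A} {c b : MonoidAlgebra k A} {D : Finset (Subgroup A)} (h : Gg.Sit p V c b)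
    (hD : Gg.Fam p ⊤ V D) (hM : M.Normal) (hab : ∀ x y : A, y * x * y⁻¹ * x⁻¹ ∈ M)
    (hVM : V ≤ M) (hb : SuppIn M b) (hp : ¬ p ∣ M.index) {H : Subgroup A} (hMH : M ≤ H)
    (hHp : H.index.Prime) (hN : H.Normal)
    (iso : ∀ x y : A, M ⊔ Subgroup.closure {x, y} ≠ ⊤ → T1 p M D b x y = 0)
    (hT : ∀ x ∉ H, ∀ y ∈ H, T1 p M D b x y = 0) : NavarroEq p ⊤ ⊤ b := by
  classical
  have hHtop : H ≠ ⊤ := by
    rintro rfl
    rw [Subgroup.index_top] at hHp
    exact Nat.not_prime_one hHp
  -- all the sums vanish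
  have hall : ∀ x y : A, T1 p M D b x y = 0 := by
    intro x y
    by_cases hx : x ∈ H
    · by_cases hy : y ∈ H
      · apply iso
        intro htop
        apply hHtop
        rw [eq_top_iff, ← htop]
        refine sup_le hMH ?_
        rw [Subgroup.closure_le]
        rintro z (rfl | rfl)
        · exact hx
        · exact hy
      · rw [← T1_inv_swap hM]
        exact hT _ (fun h1 => hy (inv_mem_iff.1 h1)) _ hx
    · obtain ⟨j, hj⟩ := exists_pow hHp hN hx y
      rw [← T1_pow hM D b x y j]
      exact hT x hx _ hj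
  rw [h.navarro_iff hD]
  have hpr : ∀ x : A, Prm p M x := by
    intro x
    exact ⟨M.index, hp, M.pow_index_mem x⟩
  have hmn : (⊤ : Subgroup A) ≤ Subgroup.normalizer (M : Set A) := by
    rw [Subgroup.normalizer_eq_top_iff.2 hM]
  have h1 := bl_pairs (p := p) (D := D) (f := b) (M := M) (Y := ⊤) le_top hmn
    (fun Q hQ => ⟨le_top, hD.pgrp Q hQ⟩) hb (mem_fixAlg.1 h.blk.mem).2 h.blk.idem
  have h2 : ((prs M (⊤ : Subgroup A)).filter (fun z => Prm p M z.1)) = Finset.univ := by
    rw [Finset.eq_univ_iff_forall]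
    intro z
    rw [Finset.mem_filter, mem_prs]
    exact ⟨⟨Subgroup.mem_top _, Subgroup.mem_top _, hab _ _⟩, hpr _⟩
  have h3 := sum_T1 (p := p) M D b
  rw [Finset.sum_eq_zero fun x _ => Finset.sum_eq_zero fun y _ => hall x y] at h3
  have h4 : ∑ u : A, ∑ v : A, dl p M D b u v
      = (Nat.card M : WittVector p k) * ((Bl (⊤ : Subgroup A) D b : ℤ) : WittVector p k) := by
    rw [h1]
    rw [← Fintype.sum_prod_type']
    refine Finset.sum_congr ?_ fun _ _ => rfl
    rw [← h2]
  rw [h4] at h3
  have h5 : (((Nat.card M : ℤ) * ((Nat.card M : ℤ) * ((Nat.card M : ℤ) * Bl (⊤ : Subgroup A) D b)) : ℤ)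
      : WittVector p k) = 0 := by
    push_cast
    exact h3.symm
  have h6 := int_inj p h5
  have h7 : (Nat.card M : ℤ) ≠ 0 := by
    have : 0 < Nat.card M := Nat.card_pos
    omega
  simpa [h7] using h6

end Pool.Agent.Lib.P0c8ca5.Mm
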