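import Mathlib
import Pool.Agent.Lib.P0c8ca5H.Defs
import Pool.Agent.Lib.P0c8ca5G.SitA

/-!
# Twisted central extensions

`TD M Y m`: two homomorphisms `i`, `j` from `Y` to `ZMod m`, trivial on `M`.  `Tw τ` is the group of the pairs `(g, c)`, `g ∈ Y`, `c ∈ ZMod m`,
with `(g, c) (h, d) = (g h, c + d + i g * j h)`.
-/

set_option autoImplicit false

namespace Pool.Agent.Lib.P0c8ca5.Mm

open MonoidAlgebra Ps Bq Zz Gg

universe u v

variable {A : Type u} [Group A]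

/-- two homomorphisms from `Y` to `ZMod m`, trivial on `M` -/
structure TD (M Y : Subgroup A) (m : ℕ) where
  i : ↥Y → ZMod m
  j : ↥Y → ZMod m
  im : ∀ g h, i (g * h) = i g + i h
  jm : ∀ g h, j (g * h) = j g + j h
  i0 : ∀ g : ↥Y, (g : A) ∈ M → i g = 0
  j0 : ∀ g : ↥Y, (g : A) ∈ M → j g = 0

variable {M Y : Subgroup A} {m : ℕ}

theorem TD.i_one (τ : TD M Y m) : τ.i 1 = 0 := τ.i0 1 M.one_mem

theorem TD.j_one (τ : TD M Y m) : τ.j 1 = 0 := τ.j0 1 M.one_mem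

theorem TD.i_inv (τ : TD M Y m) (g : ↥Y) : τ.i g⁻¹ = -τ.i g := by
  have h := τ.im g⁻¹ g
  rw [inv_mul_cancel, τ.i_one] at h
  exact eq_neg_of_add_eq_zero_left h.symm

theorem TD.j_inv (τ : TD M Y m) (g : ↥Y) : τ.j g⁻¹ = -τ.j g := by
  have h := τ.jm g⁻¹ g
  rw [inv_mul_cancel, τ.j_one] at h
  exact eq_neg_of_add_eq_zero_left h.symm

/-- the twisted central extension -/
@[ext]
structure Tw (τ : TD M Y m) : Type u where
  g : ↥Y
  c : ZMod m

namespace Tw

variable {τ : TD M Y m}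

instance : Mul (Tw τ) := ⟨fun a b => ⟨a.g * b.g, a.c + b.c + τ.i a.g * τ.j b.g⟩⟩
instance : One (Tw τ) := ⟨⟨1, 0⟩⟩
instance : Inv (Tw τ) := ⟨fun a => ⟨a.g⁻¹, -a.c + τ.i a.g * τ.j a.g⟩⟩

theorem mul_g (a b : Tw τ) : (a * b).g = a.g * b.g := rfl
theorem mul_c (a b : Tw τ) : (a * b).c = a.c + b.c + τ.i a.g * τ.j b.g := rfl
theorem one_g : (1 : Tw τ).g = 1 := rfl
theorem one_c : (1 : Tw τ).c = 0 := rfl
theorem inv_g (a : Tw τ) : a⁻¹.g = a.g⁻¹ := rfl
theorem inv_c (a : Tw τ) : a⁻¹.c = -a.c + τ.i a.g * τ.j a.g := rfl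

instance : Group (Tw τ) :=
  Group.ofLeftAxioms
    (by
      intro a b c
      apply Tw.ext
      · rw [mul_g, mul_g, mul_g, mul_g, mul_assoc]
      · rw [mul_c, mul_c, mul_c, mul_c, mul_g, mul_g, τ.im, τ.jm]
        ring)
    (by
      intro a
      apply Tw.ext
      · rw [mul_g, one_g, one_mul]
      · rw [mul_c, one_c, one_g, τ.i_one]
        ring)
    (by
      intro a
      apply Tw.ext
      · rw [mul_g, inv_g, one_g, inv_mul_cancel]
      · rw [mul_c, inv_c, inv_g, one_c, τ.i_inv]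
        ring)

theorem inv_g' (a : Tw τ) : a⁻¹.g = a.g⁻¹ := rfl
theorem inv_c' (a : Tw τ) : a⁻¹.c = -a.c + τ.i a.g * τ.j a.g := rfl

/-- the projection -/
def pr (τ : TD M Y m) : Tw τ →* A where
  toFun a := (a.g : A)
  map_one' := rfl
  map_mul' _ _ := rfl

theorem pr_apply (a : Tw τ) : pr τ a = (a.g : A) := rfl

theorem pr_range : (pr τ).range = Y := by
  ext x
  constructor
  · rintro ⟨a, rfl⟩
    exact a.g.2
  · intro hx
    exact ⟨⟨⟨x, hx⟩, 0⟩, rfl⟩

theorem mem_ker {a : Tw τ} : a ∈ (pr τ).ker ↔ a.g = 1 := by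
  rw [MonoidHom.mem_ker, pr_apply]
  exact ⟨fun h => Subtype.ext h, fun h => by rw [h]; rfl⟩

/-- conjugation of an element over `M` -/
theorem conj_g (a b : Tw τ) : (a * b * a⁻¹).g = a.g * b.g * a.g⁻¹ := rfl

theorem conj_c (a b : Tw τ) (hb : (b.g : A) ∈ M) : (a * b * a⁻¹).c = b.c := by
  rw [mul_c, mul_c, mul_g, inv_c', inv_g', τ.im, τ.j_inv, τ.i0 _ hb, τ.j0 _ hb]
  ring

theorem comm_g (a b : Tw τ) : (a * b * a⁻¹ * b⁻¹).g = a.g * b.g * a.g⁻¹ * b.g⁻¹ := rfl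

theorem comm_c (a b : Tw τ) :
    (a * b * a⁻¹ * b⁻¹).c = τ.i a.g * τ.j b.g - τ.i b.g * τ.j a.g := by
  simp only [mul_c, mul_g, inv_c', inv_g', τ.im, τ.j_inv, τ.i_inv]
  ring

theorem ker_le_center : (pr τ).ker ≤ Subgroup.center (Tw τ) := by
  intro a ha
  rw [mem_ker] at ha
  rw [Subgroup.mem_center_iff]
  intro b
  apply Tw.ext
  · rw [mul_g, mul_g, ha, mul_one, one_mul]
  · rw [mul_c, mul_c, ha, τ.i_one, τ.j_one]
    ring

/-- the elements over the centre that are trivial in the second component or not -/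
theorem comap_center_le {Z : Subgroup A} (hZ : Z ≤ Subgroup.center A) (hZM : Z ≤ M) :
    Z.comap (pr τ) ≤ Subgroup.center (Tw τ) := by
  intro a ha
  have ha' : (a.g : A) ∈ Z := ha
  rw [Subgroup.mem_center_iff]
  intro b
  apply Tw.ext
  · rw [mul_g, mul_g]
    exact Subtype.ext (Subgroup.mem_center_iff.1 (hZ ha') _)
  · rw [mul_c, mul_c, τ.i0 _ (hZM ha'), τ.j0 _ (hZM ha')]
    ring

/-- the underlying type is a product -/
def equivProd (τ : TD M Y m) : Tw τ ≃ ↥Y × ZMod m where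
  toFun a := (a.g, a.c)
  invFun a := ⟨a.1, a.2⟩
  left_inv _ := rfl
  right_inv _ := rfl

noncomputable instance [Fintype A] [NeZero m] : Fintype (Tw τ) := by
  classical
  exact Fintype.ofEquiv _ (equivProd τ).symm

instance [Finite A] [NeZero m] : Finite (Tw τ) := Finite.of_equiv _ (equivProd τ).symm

theorem card_comap [Finite A] [NeZero m] {N : Subgroup A} (hN : N ≤ Y) :
    Nat.card (N.comap (pr τ)) = Nat.card N * m := by
  have e : ↥(N.comap (pr τ)) ≃ ↥N × ZMod m :=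
    { toFun := fun a => (⟨(a.1.g : A), a.2⟩, a.1.c)
      invFun := fun a => ⟨⟨⟨a.1, hN a.1.2⟩, a.2⟩, a.1.2⟩
      left_inv := fun _ => rfl
      right_inv := fun _ => rfl }
  rw [Nat.card_congr e, Nat.card_prod, Nat.card_zmod]

theorem card_ker [NeZero m] : Nat.card (pr τ).ker = m := by
  have e : ↥(pr τ).ker ≃ ZMod m :=
    { toFun := fun a => a.1.c
      invFun := fun a => ⟨⟨1, a⟩, mem_ker.2 rfl⟩
      left_inv := fun a => Subtype.ext (Tw.ext (mem_ker.1 a.2).symm rfl)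
      right_inv := fun _ => rfl }
  rw [Nat.card_congr e, Nat.card_zmod]

end Tw

end Pool.Agent.Lib.P0c8ca5.Mm
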