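import Mathlib
import Pool.Agent.Lib.P0c8ca5M.TwA
import Pool.Agent.Lib.P0c8ca5M.IsoA

/-!
# Module IsoC: pairs of determinant one have the same sum over the cosets

`M` is a normal subgroup of `A` with abelian factor group of order prime to `p`.  `m` is the generator of the ideal of the integers that
is generated by all `a`, `b` with `x ^ a * y ^ b ∈ M`; the elements of `M ⊔ closure {x, y}` are `x ^ a * y ^ b * z`, `z ∈ M`, and
`a`, `b` are determined modulo `m`.  The symbol of `x ^ a * y ^ b` and `x ^ c * y ^ d` is the symbol of `x` and `y` to the power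
`a d - b c`, and its `m`-th power is `1`.
-/

set_option autoImplicit false

namespace Pool.Agent.Lib.P0c8ca5.Mm

open MonoidAlgebra Ps Bq Zz Gg Hh IsoAAux

universe u v

namespace IsoCAux

section Sym

variable {k : Type*} [Field k] {A : Type*} [Group A] {N K : Subgroup A} {n : ℕ} {ρ : Rp k N n}

/-- the elements of `K` have intertwiners and commute modulo `N` -/
structure Good (N K : Subgroup A) (ρ : Rp k N n) : Prop where
  irr : Irr' ρ
  nor : ∀ g ∈ K, g ∈ Subgroup.normalizer (N : Set A)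
  itw : ∀ g ∈ K, ∃ X, Itw N ρ g X
  com : ∀ g ∈ K, ∀ h ∈ K, h * g * h⁻¹ * g⁻¹ ∈ N

theorem Good.ne [IsAlgClosed k] (hG : Good N K ρ) (g h : K) : om N ρ (g : A) (h : A) ≠ 0 :=
  (om_ne_zero_iff hG.irr (hG.nor g g.2) (hG.nor h h.2)).2
    ⟨hG.itw g g.2, hG.itw h h.2, hG.com g g.2 h h.2⟩

/-- the symbol as a homomorphism -/
noncomputable def omH [IsAlgClosed k] (hG : Good N K ρ) (g : K) : K →* kˣ where
  toFun h := Units.mk0 (om N ρ (g : A) (h : A)) (hG.ne g h)
  map_one' := by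
    apply Units.ext
    show om N ρ (g : A) 1 = 1
    exact om_mem_right hG.irr (hG.nor g g.2) (hG.itw g g.2) N.one_mem
  map_mul' h h' := by
    apply Units.ext
    show om N ρ (g : A) ((h : A) * (h' : A)) = om N ρ (g : A) (h : A) * om N ρ (g : A) (h' : A)
    exact om_mul_right hG.irr (hG.nor g g.2) (hG.nor h h.2) (hG.nor h' h'.2) (hG.ne g h)
      (hG.ne g h')

theorem omH_val [IsAlgClosed k] (hG : Good N K ρ) (g h : K) :
    (omH hG g h : k) = om N ρ (g : A) (h : A) := rfl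

theorem omH_self [IsAlgClosed k] (hG : Good N K ρ) (g : K) : omH hG g g = 1 := by
  apply Units.ext
  rw [omH_val]
  obtain ⟨X, hX⟩ := hG.itw g g.2
  refine om_eq hG.irr (hG.nor g g.2) (hG.nor g g.2) ⟨X, X, 1, hX, hX, ?_, fun v => ?_⟩
  · show (1 : A) = (g : A) * (g : A) * (g : A)⁻¹ * (g : A)⁻¹
    group
  · rw [map_one, Module.End.one_apply]
    exact (one_smul k _).symm

theorem omH_symm [IsAlgClosed k] (hG : Good N K ρ) (g h : K) :
    omH hG h g = (omH hG g h)⁻¹ := by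
  apply Units.ext
  rw [Units.val_inv_eq_inv_val, omH_val, omH_val]
  exact om_symm hG.irr (hG.nor g g.2) (hG.nor h h.2)

theorem omH_det [IsAlgClosed k] (hG : Good N K ρ) (x y : K) (a b c d : ℤ) :
    omH hG (x ^ a * y ^ b) (x ^ c * y ^ d) = (omH hG x y) ^ (a * d - b * c) := by
  have h1 : omH hG (x ^ a * y ^ b) x = ((omH hG x y) ^ b)⁻¹ := by
    rw [omH_symm hG x, map_mul, map_zpow, map_zpow, omH_self, one_zpow, one_mul]
  have h2 : omH hG (x ^ a * y ^ b) y = (omH hG x y) ^ a := by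
    rw [omH_symm hG y, map_mul, map_zpow, map_zpow, omH_self, one_zpow, mul_one,
      omH_symm hG x y, inv_zpow, inv_inv]
  rw [map_mul, map_zpow, map_zpow, h1, h2, inv_zpow', ← zpow_mul, ← zpow_mul, ← zpow_add]
  congr 1
  ring

theorem omH_of_mem_right [IsAlgClosed k] (hG : Good N K ρ) (g h : K) (hh : (h : A) ∈ N) :
    omH hG g h = 1 := by
  apply Units.ext
  exact om_mem_right hG.irr (hG.nor g g.2) (hG.itw g g.2) hh

theorem omH_of_mem_left [IsAlgClosed k] (hG : Good N K ρ) (g h : K) (hg : (g : A) ∈ N) :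
    omH hG g h = 1 := by
  rw [omH_symm hG h g, omH_of_mem_right hG h g hg, inv_one]

theorem omH_zpow_left [IsAlgClosed k] (hG : Good N K ρ) (x y : K) (a b : ℤ)
    (h : ((x ^ a * y ^ b : K) : A) ∈ N) : (omH hG x y) ^ a = 1 := by
  have h1 := omH_det hG x y a b 0 1
  rw [omH_of_mem_left hG _ _ h] at h1
  have e : a * 1 - b * 0 = a := by ring
  rw [e] at h1
  exact h1.symm

theorem omH_zpow_right [IsAlgClosed k] (hG : Good N K ρ) (x y : K) (a b : ℤ)
    (h : ((x ^ a * y ^ b : K) : A) ∈ N) : (omH hG x y) ^ b = 1 := by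
  have h1 := omH_det hG x y 1 0 a b
  rw [omH_of_mem_right hG _ _ h] at h1
  have e : 1 * b - 0 * a = b := by ring
  rw [e] at h1
  exact h1.symm

end Sym

section Grp

variable {A : Type u} [Group A] {M : Subgroup A}

/-- `g = x ^ a * y ^ b` modulo `M` -/
def Re (M : Subgroup A) (x y g : A) (a b : ℤ) : Prop := g * (x ^ a * y ^ b)⁻¹ ∈ M

/-- the factor group is commutative -/
theorem mk_comm (hM : M.Normal) (hab : ∀ x y : A, y * x * y⁻¹ * x⁻¹ ∈ M) (g h : A) :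
    Commute (QuotientGroup.mk (s := M) g) (QuotientGroup.mk (s := M) h) := by
  have := hM
  have h1 := hab g h
  rw [← QuotientGroup.eq_one_iff, QuotientGroup.mk_mul, QuotientGroup.mk_mul,
    QuotientGroup.mk_mul, QuotientGroup.mk_inv, QuotientGroup.mk_inv] at h1
  have h2 : (QuotientGroup.mk (s := M) h) * (QuotientGroup.mk (s := M) g)
      = (QuotientGroup.mk (s := M) g) * (QuotientGroup.mk (s := M) h) := by
    rw [mul_inv_eq_one] at h1
    rw [mul_inv_eq_iff_eq_mul] at h1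
    exact h1
  exact h2.symm

theorem re_iff (hM : M.Normal) {x y g : A} {a b : ℤ} :
    Re M x y g a b ↔ (QuotientGroup.mk (s := M) g)
      = (QuotientGroup.mk (s := M) x) ^ a * (QuotientGroup.mk (s := M) y) ^ b := by
  have := hM
  unfold Re
  rw [← QuotientGroup.eq_one_iff, QuotientGroup.mk_mul, QuotientGroup.mk_inv,
    QuotientGroup.mk_mul, QuotientGroup.mk_zpow, QuotientGroup.mk_zpow, mul_inv_eq_one]

theorem re_of_mem {x y g : A} (hg : g ∈ M) : Re M x y g 0 0 := by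
  unfold Re
  simpa using hg

theorem re_mul (hM : M.Normal) (hab : ∀ x y : A, y * x * y⁻¹ * x⁻¹ ∈ M) {x y g h : A}
    {a b c d : ℤ} (h1 : Re M x y g a b) (h2 : Re M x y h c d) :
    Re M x y (g * h) (a + c) (b + d) := by
  have := hM
  rw [re_iff hM] at h1 h2 ⊢
  rw [QuotientGroup.mk_mul, h1, h2, zpow_add, zpow_add]
  have h3 : Commute ((QuotientGroup.mk (s := M) y) ^ b) ((QuotientGroup.mk (s := M) x) ^ c) :=
    ((mk_comm hM hab y x).zpow_left b).zpow_right c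
  rw [mul_assoc, mul_assoc, ← mul_assoc (_ ^ b), h3.eq, mul_assoc]

theorem re_sub (hM : M.Normal) (hab : ∀ x y : A, y * x * y⁻¹ * x⁻¹ ∈ M) {x y g : A}
    {a b c d : ℤ} (h1 : Re M x y g a b) (h2 : Re M x y g c d) :
    x ^ (a - c) * y ^ (b - d) ∈ M := by
  have := hM
  rw [re_iff hM] at h1 h2
  rw [← QuotientGroup.eq_one_iff, QuotientGroup.mk_mul, QuotientGroup.mk_zpow,
    QuotientGroup.mk_zpow]
  have h3 : Commute (QuotientGroup.mk (s := M) x) (QuotientGroup.mk (s := M) y) :=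
    mk_comm hM hab x y
  have h4 := h1.symm.trans h2
  rw [zpow_sub, zpow_sub]
  have h5 : Commute ((QuotientGroup.mk (s := M) x) ^ c)⁻¹ ((QuotientGroup.mk (s := M) y) ^ b) :=
    ((h3.zpow_left c).zpow_right b).inv_left
  calc (QuotientGroup.mk (s := M) x) ^ a * ((QuotientGroup.mk (s := M) x) ^ c)⁻¹ *
        ((QuotientGroup.mk (s := M) y) ^ b * ((QuotientGroup.mk (s := M) y) ^ d)⁻¹)
      = (QuotientGroup.mk (s := M) x) ^ a * (((QuotientGroup.mk (s := M) x) ^ c)⁻¹ *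
        (QuotientGroup.mk (s := M) y) ^ b) * ((QuotientGroup.mk (s := M) y) ^ d)⁻¹ := by
          group
    _ = ((QuotientGroup.mk (s := M) x) ^ a * (QuotientGroup.mk (s := M) y) ^ b) *
        ((QuotientGroup.mk (s := M) x) ^ c)⁻¹ * ((QuotientGroup.mk (s := M) y) ^ d)⁻¹ := by
          rw [h5.eq]
          group
    _ = 1 := by
          rw [h4]
          have h6 : Commute ((QuotientGroup.mk (s := M) y) ^ d)
            ((QuotientGroup.mk (s := M) x) ^ c)⁻¹ :=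
            ((h3.symm.zpow_left d).zpow_right c).inv_right
          rw [mul_assoc ((QuotientGroup.mk (s := M) x) ^ c), h6.eq]
          group

theorem mem_gen_left (M : Subgroup A) (x y : A) : x ∈ M ⊔ Subgroup.closure {x, y} :=
  Subgroup.mem_sup_right (Subgroup.subset_closure (Set.mem_insert _ _))

theorem mem_gen_right (M : Subgroup A) (x y : A) : y ∈ M ⊔ Subgroup.closure {x, y} :=
  Subgroup.mem_sup_right (Subgroup.subset_closure (Set.mem_insert_of_mem _ rfl))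

/-- every element of the group generated by `M`, `x`, `y` is `x ^ a * y ^ b` modulo `M` -/
theorem exists_re (hM : M.Normal) (hab : ∀ x y : A, y * x * y⁻¹ * x⁻¹ ∈ M) {x y g : A}
    (hg : g ∈ M ⊔ Subgroup.closure {x, y}) : ∃ a b : ℤ, Re M x y g a b := by
  have := hM
  let B : Subgroup A :=
    { carrier := {g | ∃ a b : ℤ, Re M x y g a b}
      one_mem' := ⟨0, 0, re_of_mem M.one_mem⟩
      mul_mem' := by
        rintro g h ⟨a, b, h1⟩ ⟨c, d, h2⟩
        exact ⟨a + c, b + d, re_mul hM hab h1 h2⟩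
      inv_mem' := by
        rintro g ⟨a, b, h1⟩
        refine ⟨-a, -b, ?_⟩
        rw [re_iff hM] at h1 ⊢
        have h3 : Commute ((QuotientGroup.mk (s := M) x) ^ (-a))
          ((QuotientGroup.mk (s := M) y) ^ (-b)) :=
          ((mk_comm hM hab x y).zpow_left _).zpow_right _
        rw [QuotientGroup.mk_inv, h1, mul_inv_rev, ← zpow_neg, ← zpow_neg, h3.eq] }
  have h1 : M ⊔ Subgroup.closure {x, y} ≤ B := by
    refine sup_le ?_ ?_
    · intro z hz
      exact ⟨0, 0, re_of_mem hz⟩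
    · rw [Subgroup.closure_le]
      rintro z (rfl | rfl)
      · refine ⟨1, 0, ?_⟩
        unfold Re
        simp
      · refine ⟨0, 1, ?_⟩
        unfold Re
        simp
  exact h1 hg

/-- the ideal of the exponents -/
def idl (M : Subgroup A) (x y : A) : Ideal ℤ :=
  Ideal.span {a | ∃ b : ℤ, x ^ a * y ^ b ∈ M ∨ x ^ b * y ^ a ∈ M}

/-- its generator -/
noncomputable def gen (M : Subgroup A) (x y : A) : ℕ :=
  (Submodule.IsPrincipal.generator (idl M x y)).natAbs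

theorem span_gen (M : Subgroup A) (x y : A) : Ideal.span {((gen M x y : ℕ) : ℤ)} = idl M x y := by
  unfold gen
  rw [Int.span_natAbs]
  exact Ideal.span_singleton_generator (idl M x y)

theorem dvd_of_mem_idl {x y : A} {a : ℤ} (h : a ∈ idl M x y) : ((gen M x y : ℕ) : ℤ) ∣ a := by
  rw [← span_gen, Ideal.mem_span_singleton] at h
  exact h

theorem gen_dvd_left {x y : A} {a b : ℤ} (h : x ^ a * y ^ b ∈ M) :
    ((gen M x y : ℕ) : ℤ) ∣ a := dvd_of_mem_idl (Ideal.subset_span ⟨b, Or.inl h⟩)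

theorem gen_dvd_right {x y : A} {a b : ℤ} (h : x ^ a * y ^ b ∈ M) :
    ((gen M x y : ℕ) : ℤ) ∣ b := dvd_of_mem_idl (Ideal.subset_span ⟨a, Or.inr h⟩)

theorem gen_dvd_index (hM : M.Normal) (x y : A) : gen M x y ∣ M.index := by
  have h1 : x ^ (M.index : ℤ) * y ^ (0 : ℤ) ∈ M := by
    rw [zpow_zero, mul_one, zpow_natCast]
    exact M.pow_index_mem x
  exact Int.natCast_dvd_natCast.1 (gen_dvd_left h1)

/-- a subgroup of the integers that contains the exponents contains `gen` -/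
theorem pow_gen {G : Type*} [Group G] (w : G) {x y : A}
    (h : ∀ a b : ℤ, x ^ a * y ^ b ∈ M → w ^ a = 1 ∧ w ^ b = 1) : w ^ (gen M x y) = 1 := by
  have h1 : idl M x y ≤ Ideal.span {((orderOf w : ℕ) : ℤ)} := by
    unfold idl
    rw [Ideal.span_le]
    rintro a ⟨b, hb | hb⟩
    · rw [SetLike.mem_coe, Ideal.mem_span_singleton, orderOf_dvd_iff_zpow_eq_one]
      exact (h a b hb).1
    · rw [SetLike.mem_coe, Ideal.mem_span_singleton, orderOf_dvd_iff_zpow_eq_one]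
      exact (h b a hb).2
  have h2 : ((gen M x y : ℕ) : ℤ) ∈ idl M x y := by
    rw [← span_gen]
    exact Ideal.mem_span_singleton_self _
  have h3 := h1 h2
  rw [Ideal.mem_span_singleton, orderOf_dvd_iff_zpow_eq_one, zpow_natCast] at h3
  exact h3

/-- the exponents as homomorphisms -/
noncomputable def mkTD (hM : M.Normal) (hab : ∀ x y : A, y * x * y⁻¹ * x⁻¹ ∈ M) (x y : A) :
    { τ : TD M (M ⊔ Subgroup.closure {x, y}) (gen M x y) //
      ∀ (g : ↥(M ⊔ Subgroup.closure {x, y})) (a b : ℤ), Re M x y (g : A) a b →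
        τ.i g = (a : ZMod (gen M x y)) ∧ τ.j g = (b : ZMod (gen M x y)) } := by
  have key : ∀ (g : A) (a b c d : ℤ), Re M x y g a b → Re M x y g c d →
      (a : ZMod (gen M x y)) = (c : ZMod (gen M x y)) ∧
        (b : ZMod (gen M x y)) = (d : ZMod (gen M x y)) := by
    intro g a b c d h1 h2
    have h3 := re_sub hM hab h2 h1
    constructor
    · rw [ZMod.intCast_eq_intCast_iff_dvd_sub]
      exact gen_dvd_left h3
    · rw [ZMod.intCast_eq_intCast_iff_dvd_sub]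
      exact gen_dvd_right h3
  choose fa fb hfab using fun g : ↥(M ⊔ Subgroup.closure {x, y}) => exists_re hM hab g.2
  refine ⟨⟨fun g => (fa g : ZMod (gen M x y)), fun g => (fb g : ZMod (gen M x y)), ?_, ?_, ?_,
    ?_⟩, ?_⟩
  · intro g h
    have h1 := (key _ _ _ _ _ (hfab (g * h)) (re_mul hM hab (hfab g) (hfab h))).1
    rw [h1, Int.cast_add]
  · intro g h
    have h1 := (key _ _ _ _ _ (hfab (g * h)) (re_mul hM hab (hfab g) (hfab h))).2
    rw [h1, Int.cast_add]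
  · intro g hg
    have h1 := (key _ _ _ _ _ (hfab g) (re_of_mem hg)).1
    rw [h1, Int.cast_zero]
  · intro g hg
    have h1 := (key _ _ _ _ _ (hfab g) (re_of_mem hg)).2
    rw [h1, Int.cast_zero]
  · intro g a b h
    exact key _ _ _ _ _ (hfab g) h

theorem mk_eq (hM : M.Normal) {g h : A} (hgh : g * h⁻¹ ∈ M) :
    (QuotientGroup.mk (s := M) g) = QuotientGroup.mk (s := M) h := by
  have := hM
  rw [← QuotientGroup.eq_one_iff, QuotientGroup.mk_mul, QuotientGroup.mk_inv,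
    mul_inv_eq_one] at hgh
  exact hgh

theorem of_mk_eq (hM : M.Normal) {g h : A}
    (hgh : (QuotientGroup.mk (s := M) g) = QuotientGroup.mk (s := M) h) : g * h⁻¹ ∈ M := by
  have := hM
  rw [← QuotientGroup.eq_one_iff, QuotientGroup.mk_mul, QuotientGroup.mk_inv,
    mul_inv_eq_one]
  exact hgh

/-- change of the representatives -/
theorem re_rep (hM : M.Normal) {x y x0 y0 u : A} {a b : ℤ} (hx : x0 * x⁻¹ ∈ M)
    (hy : y0 * y⁻¹ ∈ M) (hu : Re M x y u a b) : (x0 ^ a * y0 ^ b) * u⁻¹ ∈ M := by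
  have := hM
  apply of_mk_eq hM
  rw [(re_iff hM).1 hu, QuotientGroup.mk_mul, QuotientGroup.mk_zpow, QuotientGroup.mk_zpow,
    mk_eq hM hx, mk_eq hM hy]

theorem zpow_mem_of (hM : M.Normal) {x y x0 y0 : A} {a b : ℤ} (hx : x0 * x⁻¹ ∈ M)
    (hy : y0 * y⁻¹ ∈ M) (h : x ^ a * y ^ b ∈ M) : x0 ^ a * y0 ^ b ∈ M := by
  have := hM
  rw [← QuotientGroup.eq_one_iff, QuotientGroup.mk_mul, QuotientGroup.mk_zpow,
    QuotientGroup.mk_zpow] at h ⊢
  rw [mk_eq hM hx, mk_eq hM hy, h]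

theorem sup_le_of {u v u0 v0 : A} (hu : u0 * u⁻¹ ∈ M) (hv : v0 * v⁻¹ ∈ M) :
    M ⊔ Subgroup.closure {u0, v0} ≤ M ⊔ Subgroup.closure {u, v} := by
  refine sup_le le_sup_left ?_
  rw [Subgroup.closure_le]
  rintro z (rfl | rfl)
  · have h1 := mul_mem (Subgroup.mem_sup_left (T := Subgroup.closure {u, v}) hu)
      (mem_gen_left M u v)
    rwa [inv_mul_cancel_right] at h1
  · have h1 := mul_mem (Subgroup.mem_sup_left (T := Subgroup.closure {u, v}) hv)
      (mem_gen_right M u v)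
    rwa [inv_mul_cancel_right] at h1

theorem inv_coset (hM : M.Normal) {u u0 : A} (hu : u0 * u⁻¹ ∈ M) : u * u0⁻¹ ∈ M := by
  have h1 := M.inv_mem hu
  have e : (u0 * u⁻¹)⁻¹ = u * u0⁻¹ := by group
  rwa [e] at h1

theorem sup_eq_of (hM : M.Normal) {u v u0 v0 : A} (hu : u0 * u⁻¹ ∈ M) (hv : v0 * v⁻¹ ∈ M) :
    M ⊔ Subgroup.closure {u0, v0} = M ⊔ Subgroup.closure {u, v} :=
  le_antisymm (sup_le_of hu hv) (sup_le_of (inv_coset hM hu) (inv_coset hM hv))

/-- an element of the group generated by `M`, `u`, `v` is in the group generated by `u`, `v` modulo `M` -/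
theorem exists_cl (hM : M.Normal) {u v g : A} (hg : g ∈ M ⊔ Subgroup.closure {u, v}) :
    ∃ w ∈ Subgroup.closure {u, v}, g * w⁻¹ ∈ M := by
  have := hM
  obtain ⟨z, hz, w, hw, h⟩ := Subgroup.mem_sup_of_normal_left.1 hg
  refine ⟨w, hw, ?_⟩
  rw [← h, mul_inv_cancel_right]
  exact hz

end Grp

section Chain

variable {p : ℕ} {k : Type v} [Field k] {A : Type u} [Group A] {M : Subgroup A}

theorem mem_stab_of {σ : Finset (Subgroup A)} {g : A} (h1 : g ∈ M) (h2 : g ∈ stab ⊤ σ) :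
    g ∈ stab M σ := by
  rw [mem_stab] at h2 ⊢
  exact ⟨h1, h2.2⟩

/-- the elements of `stab ⊤ σ` that have an intertwiner -/
def itG (hM : M.Normal) (σ : Finset (Subgroup A)) {n : ℕ} (ρ : Rp k (stab M σ) n) :
    Subgroup A where
  carrier := {g | g ∈ stab ⊤ σ ∧ ∃ X, Itw (stab M σ) ρ g X}
  one_mem' := by
    refine ⟨one_mem _, ?_⟩
    obtain ⟨X, hX, -⟩ := itw_of_mem (ρ := ρ) (one_mem (stab M σ))
    exact ⟨X, hX⟩
  mul_mem' := by
    rintro g h ⟨h1, X, hX⟩ ⟨h2, Y, hY⟩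
    exact ⟨mul_mem h1 h2, _, hX.mul (stab_le_normalizer hM σ h1) (stab_le_normalizer hM σ h2) hY⟩
  inv_mem' := by
    rintro g ⟨h1, X, hX⟩
    exact ⟨inv_mem h1, _, hX.inv (stab_le_normalizer hM σ h1)⟩

theorem itG_good (hM : M.Normal) (hab : ∀ x y : A, y * x * y⁻¹ * x⁻¹ ∈ M)
    (σ : Finset (Subgroup A)) {n : ℕ} {ρ : Rp k (stab M σ) n} (hρ : Irr' ρ) :
    Good (stab M σ) (itG hM σ ρ) ρ where
  irr := hρ
  nor := fun g hg => stab_le_normalizer hM σ hg.1
  itw := fun g hg => hg.2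
  com := fun g hg h hh => mem_stab_of (hab g h)
    (mul_mem (mul_mem (mul_mem hh.1 hg.1) (inv_mem hh.1)) (inv_mem hg.1))

theorem le_itG (hM : M.Normal) (σ : Finset (Subgroup A)) {n : ℕ} (ρ : Rp k (stab M σ) n) :
    stab M σ ≤ itG hM σ ρ := by
  intro g hg
  refine ⟨?_, ?_⟩
  · rw [mem_stab] at hg ⊢
    exact ⟨Subgroup.mem_top _, hg.2⟩
  · obtain ⟨X, hX, -⟩ := itw_of_mem (ρ := ρ) hg
    exact ⟨X, hX⟩

/-- the symbols of pairs of determinant one agree -/
theorem om_det [IsAlgClosed k] (hM : M.Normal) (hab : ∀ x y : A, y * x * y⁻¹ * x⁻¹ ∈ M)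
    (σ : Finset (Subgroup A)) {n : ℕ} {ρ : Rp k (stab M σ) n} (hρ : Irr' ρ)
    {x y x0 y0 u v : A} (hx : x0 * x⁻¹ ∈ M) (hy : y0 * y⁻¹ ∈ M) (hx0 : x0 ∈ stab ⊤ σ)
    (hy0 : y0 ∈ stab ⊤ σ) {a b c d : ℤ} (hu : Re M x y u a b) (hv : Re M x y v c d)
    (hg : M ⊔ Subgroup.closure {u, v} = M ⊔ Subgroup.closure {x, y})
    (hd : ((gen M x y : ℕ) : ℤ) ∣ a * d - b * c - 1) :
    om (stab M σ) ρ (x0 ^ a * y0 ^ b) (x0 ^ c * y0 ^ d) = om (stab M σ) ρ x0 y0 := by
  have hu0 : x0 ^ a * y0 ^ b ∈ stab ⊤ σ := mul_mem (zpow_mem hx0 _) (zpow_mem hy0 _)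
  have hv0 : x0 ^ c * y0 ^ d ∈ stab ⊤ σ := mul_mem (zpow_mem hx0 _) (zpow_mem hy0 _)
  have hn := stab_le_normalizer hM σ
  by_cases hK : x0 ∈ itG hM σ ρ ∧ y0 ∈ itG hM σ ρ
  · obtain ⟨hKx, hKy⟩ := hK
    have hG := itG_good hM hab σ hρ
    have h1 := omH_det hG ⟨x0, hKx⟩ ⟨y0, hKy⟩ a b c d
    have h2 : (omH hG ⟨x0, hKx⟩ ⟨y0, hKy⟩) ^ (gen M x y) = 1 := by
      apply pow_gen (M := M) (x := x) (y := y)
      intro a' b' h3
      have h4 : x0 ^ a' * y0 ^ b' ∈ stab M σ := mem_stab_of (zpow_mem_of hM hx hy h3)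
        (mul_mem (zpow_mem hx0 _) (zpow_mem hy0 _))
      exact ⟨omH_zpow_left hG ⟨x0, hKx⟩ ⟨y0, hKy⟩ a' b' h4,
        omH_zpow_right hG ⟨x0, hKx⟩ ⟨y0, hKy⟩ a' b' h4⟩
    obtain ⟨t, ht⟩ := hd
    have h5 : a * d - b * c = ((gen M x y : ℕ) : ℤ) * t + 1 := by linarith
    rw [h5, zpow_add, zpow_mul, zpow_natCast, h2, one_zpow, one_mul, zpow_one] at h1
    exact congrArg Units.val h1
  · have h1 : om (stab M σ) ρ x0 y0 = 0 := by
      by_contra hcon
      obtain ⟨h2, h3, -⟩ := (om_ne_zero_iff hρ (hn hx0) (hn hy0)).1 hcon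
      exact hK ⟨⟨hx0, h2⟩, ⟨hy0, h3⟩⟩
    rw [h1]
    by_contra hcon
    obtain ⟨h2, h3, -⟩ := (om_ne_zero_iff hρ (hn hu0) (hn hv0)).1 hcon
    have h4 : Subgroup.closure {x0 ^ a * y0 ^ b, x0 ^ c * y0 ^ d} ≤ itG hM σ ρ := by
      rw [Subgroup.closure_le]
      rintro z (rfl | rfl)
      · exact ⟨hu0, h2⟩
      · exact ⟨hv0, h3⟩
    have h5 : M ⊔ Subgroup.closure {x0 ^ a * y0 ^ b, x0 ^ c * y0 ^ d}
        = M ⊔ Subgroup.closure {x0, y0} := by
      rw [sup_eq_of hM (re_rep hM hx hy hu) (re_rep hM hx hy hv), hg, sup_eq_of hM hx hy]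
    have h6 : ∀ g ∈ stab ⊤ σ, g ∈ M ⊔ Subgroup.closure {x0, y0} → g ∈ itG hM σ ρ := by
      intro g hgS hg'
      rw [← h5] at hg'
      obtain ⟨w, hw, hgw⟩ := exists_cl hM hg'
      have h7 := h4 hw
      have h8 : g * w⁻¹ ∈ stab M σ := mem_stab_of hgw (mul_mem hgS (inv_mem h7.1))
      have h9 := mul_mem (le_itG hM σ ρ h8) h7
      rwa [inv_mul_cancel_right] at h9
    exact hK ⟨h6 x0 hx0 (mem_gen_left M x0 y0), h6 y0 hy0 (mem_gen_right M x0 y0)⟩

/-- the sum of the symbols for a chain -/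
noncomputable def Gs (p : ℕ) [Fact p.Prime] (M : Subgroup A) (f : MonoidAlgebra k A)
    (σ : Finset (Subgroup A)) (x y : A) : WittVector p k :=
  ∑ᶠ c : IrX (stab M σ) (cS (σ.sup id) f),
    WittVector.teichmuller p (omX (stab M σ) (cS (σ.sup id) f) c x y)

theorem Gs_congr [Fact p.Prime] [IsAlgClosed k] (hM : M.Normal) (f : MonoidAlgebra k A)
    (σ : Finset (Subgroup A)) {x y x' y' : A} (hx : x ∈ stab ⊤ σ) (hy : y ∈ stab ⊤ σ)
    (hxx : x' * x⁻¹ ∈ stab M σ) (hyy : y' * y⁻¹ ∈ stab M σ) :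
    Gs p M f σ x' y' = Gs p M f σ x y := by
  unfold Gs
  refine finsum_congr fun c => ?_
  congr 1
  exact om_congr (out_irr c) (stab_le_normalizer hM σ hx) (stab_le_normalizer hM σ hy) hxx hyy

open Classical in
/-- the term of a chain -/
noncomputable def Hs (p : ℕ) [Fact p.Prime] (M : Subgroup A) (f : MonoidAlgebra k A)
    (σ : Finset (Subgroup A)) (x y : A) : WittVector p k :=
  if x ∈ stab ⊤ σ ∧ y ∈ stab ⊤ σ then
    ((-1) ^ σ.card * ((stab M σ).relIndex M : ℤ)) • Gs p M f σ x y else 0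

theorem T1_eq [Fact p.Prime] [Fintype A] (M : Subgroup A) (D : Finset (Subgroup A))
    (f : MonoidAlgebra k A) (x y : A) :
    T1 p M D f x y = ∑ σ ∈ Ch D, ∑ u ∈ csF M x, ∑ v ∈ csF M y, Hs p M f σ u v := by
  classical
  have h1 : ∀ u v : A, dl p M D f u v = ∑ σ ∈ Ch D, Hs p M f σ u v := by
    intro u v
    unfold dl Hs Gs
    rw [Finset.sum_filter]
  unfold T1
  simp only [h1]
  calc ∑ u ∈ csF M x, ∑ v ∈ csF M y, ∑ σ ∈ Ch D, Hs p M f σ u v
      = ∑ u ∈ csF M x, ∑ σ ∈ Ch D, ∑ v ∈ csF M y, Hs p M f σ u v :=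
        Finset.sum_congr rfl fun u _ => Finset.sum_comm
    _ = _ := Finset.sum_comm

theorem mul_mem_iff {S : Subgroup A} {u0 x0 : A} (hu : u0 ∈ S) (hx : x0 ∈ S) (g : A) :
    g * u0⁻¹ * x0 ∈ S ↔ g ∈ S := by
  rw [Subgroup.mul_mem_cancel_right S hx, Subgroup.mul_mem_cancel_right S (inv_mem hu)]

theorem csF_move [Fintype A] {x u x0 u0 g : A} (hx : x0 * x⁻¹ ∈ M) (hu : u0 * u⁻¹ ∈ M)
    (hM : M.Normal) (hg : g ∈ csF M u) : g * u0⁻¹ * x0 ∈ csF M x := by
  rw [mem_csF] at hg ⊢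
  have := hM
  apply of_mk_eq hM
  have h1 := mk_eq hM hx
  have h2 := mk_eq hM hu
  have h3 := mk_eq hM hg
  rw [QuotientGroup.mk_mul, QuotientGroup.mk_mul, QuotientGroup.mk_inv, h1, h2, h3,
    mul_inv_cancel, one_mul]

/-- the sum over the cosets for a chain -/
theorem chain_eq [Fact p.Prime] [IsAlgClosed k] [Fintype A] (hM : M.Normal)
    (hab : ∀ x y : A, y * x * y⁻¹ * x⁻¹ ∈ M) (f : MonoidAlgebra k A) (σ : Finset (Subgroup A))
    {x y u v : A} {a b c d : ℤ} (hu : Re M x y u a b) (hv : Re M x y v c d)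
    (hg : M ⊔ Subgroup.closure {u, v} = M ⊔ Subgroup.closure {x, y})
    (hd : ((gen M x y : ℕ) : ℤ) ∣ a * d - b * c - 1) :
    ∑ u' ∈ csF M u, ∑ v' ∈ csF M v, Hs p M f σ u' v'
      = ∑ x' ∈ csF M x, ∑ y' ∈ csF M y, Hs p M f σ x' y' := by
  classical
  by_cases hex : (∃ x0, x0 ∈ csF M x ∧ x0 ∈ stab ⊤ σ) ∧ (∃ y0, y0 ∈ csF M y ∧ y0 ∈ stab ⊤ σ)
  · obtain ⟨⟨x0, hx, hx0⟩, ⟨y0, hy, hy0⟩⟩ := hex
    rw [mem_csF] at hx hy
    have hu0 : x0 ^ a * y0 ^ b ∈ stab ⊤ σ := mul_mem (zpow_mem hx0 _) (zpow_mem hy0 _)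
    have hv0 : x0 ^ c * y0 ^ d ∈ stab ⊤ σ := mul_mem (zpow_mem hx0 _) (zpow_mem hy0 _)
    have hu1 := re_rep hM hx hy hu
    have hv1 := re_rep hM hx hy hv
    have hG : Gs p M f σ (x0 ^ a * y0 ^ b) (x0 ^ c * y0 ^ d) = Gs p M f σ x0 y0 := by
      unfold Gs
      refine finsum_congr fun e => ?_
      congr 1
      exact om_det hM hab σ (out_irr e) hx hy hx0 hy0 hu hv hg hd
    generalize x0 ^ a * y0 ^ b = u0 at hu0 hu1 hG
    generalize x0 ^ c * y0 ^ d = v0 at hv0 hv1 hG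
    have key : ∀ u' ∈ csF M u, ∀ v' ∈ csF M v,
        Hs p M f σ u' v' = Hs p M f σ (u' * u0⁻¹ * x0) (v' * v0⁻¹ * y0) := by
      intro u' hu' v' hv'
      unfold Hs
      rw [mul_mem_iff hu0 hx0, mul_mem_iff hv0 hy0]
      by_cases h1 : u' ∈ stab ⊤ σ ∧ v' ∈ stab ⊤ σ
      · rw [if_pos h1, if_pos h1]
        congr 1
        have h2 : u' * u0⁻¹ ∈ stab M σ := by
          refine mem_stab_of ?_ (mul_mem h1.1 (inv_mem hu0))
          rw [mem_csF] at hu'
          have e : u' * u0⁻¹ = (u' * u⁻¹) * (u * u0⁻¹) := by group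
          rw [e]
          exact mul_mem hu' (inv_coset hM hu1)
        have h3 : v' * v0⁻¹ ∈ stab M σ := by
          refine mem_stab_of ?_ (mul_mem h1.2 (inv_mem hv0))
          rw [mem_csF] at hv'
          have e : v' * v0⁻¹ = (v' * v⁻¹) * (v * v0⁻¹) := by group
          rw [e]
          exact mul_mem hv' (inv_coset hM hv1)
        rw [Gs_congr hM f σ hu0 hv0 h2 h3, hG]
        symm
        apply Gs_congr hM f σ hx0 hy0
        · rw [mul_inv_cancel_right]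
          exact h2
        · rw [mul_inv_cancel_right]
          exact h3
      · rw [if_neg h1, if_neg h1]
    refine Finset.sum_nbij' (fun u' => u' * u0⁻¹ * x0) (fun x' => x' * x0⁻¹ * u0) ?_ ?_ ?_ ?_ ?_
    · intro u' hu'
      exact csF_move hx hu1 hM hu'
    · intro x' hx'
      exact csF_move hu1 hx hM hx'
    · intro u' _
      show u' * u0⁻¹ * x0 * x0⁻¹ * u0 = u'
      group
    · intro x' _
      show x' * x0⁻¹ * u0 * u0⁻¹ * x0 = x'
      group
    · intro u' hu'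
      refine Finset.sum_nbij' (fun v' => v' * v0⁻¹ * y0) (fun y' => y' * y0⁻¹ * v0) ?_ ?_ ?_ ?_ ?_
      · intro v' hv'
        exact csF_move hy hv1 hM hv'
      · intro y' hy'
        exact csF_move hv1 hy hM hy'
      · intro v' _
        show v' * v0⁻¹ * y0 * y0⁻¹ * v0 = v'
        group
      · intro y' _
        show y' * y0⁻¹ * v0 * v0⁻¹ * y0 = y'
        group
      · intro v' hv'
        exact key u' hu' v' hv'
  · have h1 : ∀ u' ∈ csF M u, ∀ v' ∈ csF M v, Hs p M f σ u' v' = 0 := by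
      intro u' hu' v' hv'
      unfold Hs
      rw [if_neg]
      rintro ⟨h2, h3⟩
      rw [mem_csF] at hu' hv'
      apply hex
      have h4 : M ⊔ Subgroup.closure {u', v'} = M ⊔ Subgroup.closure {x, y} := by
        rw [sup_eq_of hM hu' hv', hg]
      have h5 : Subgroup.closure {u', v'} ≤ stab ⊤ σ := by
        rw [Subgroup.closure_le]
        rintro z (rfl | rfl)
        · exact h2
        · exact h3
      have h6 : ∀ g ∈ M ⊔ Subgroup.closure {x, y}, ∃ w, w ∈ csF M g ∧ w ∈ stab ⊤ σ := by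
        intro g hg'
        rw [← h4] at hg'
        obtain ⟨w, hw, hgw⟩ := exists_cl hM hg'
        exact ⟨w, mem_csF.2 (inv_coset hM hgw), h5 hw⟩
      exact ⟨h6 x (mem_gen_left M x y), h6 y (mem_gen_right M x y)⟩
    have h2 : ∀ x' ∈ csF M x, ∀ y' ∈ csF M y, Hs p M f σ x' y' = 0 := by
      intro x' hx' y' hy'
      unfold Hs
      rw [if_neg]
      rintro ⟨h3, h4⟩
      exact hex ⟨⟨x', hx', h3⟩, ⟨y', hy', h4⟩⟩
    rw [Finset.sum_eq_zero fun u' hu' => Finset.sum_eq_zero fun v' hv' => h1 u' hu' v' hv',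
      Finset.sum_eq_zero fun x' hx' => Finset.sum_eq_zero fun y' hy' => h2 x' hx' y' hy']

end Chain

end IsoCAux

open IsoCAux

/-- the exponents modulo `m`, and the sums over the cosets for the pairs of determinant one -/
theorem exists_td {p : ℕ} {k : Type v} [Field k] {A : Type u} [Group A] [Fact p.Prime] [CharP k p]
    [IsAlgClosed k] [Fintype A] {M : Subgroup A} (hM : M.Normal)
    (hab : ∀ x y : A, y * x * y⁻¹ * x⁻¹ ∈ M) (x y : A) (hp : ¬ p ∣ M.index) :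
    ∃ (m : ℕ) (_ : NeZero m) (τ : TD M (M ⊔ Subgroup.closure {x, y}) m)
      (X Y : ↥(M ⊔ Subgroup.closure {x, y})), (X : A) = x ∧ (Y : A) = y ∧ ¬ p ∣ m ∧
      τ.i X = 1 ∧ τ.j X = 0 ∧ τ.i Y = 0 ∧ τ.j Y = 1 ∧
      ∀ (D : Finset (Subgroup A)) (f : MonoidAlgebra k A) (u v : ↥(M ⊔ Subgroup.closure {x, y})),
        M ⊔ Subgroup.closure {(u : A), (v : A)} = M ⊔ Subgroup.closure {x, y} →
        τ.i u * τ.j v - τ.i v * τ.j u = 1 → T1 p M D f (u : A) (v : A) = T1 p M D f x y := by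
  have hdvd := gen_dvd_index hM x y
  have hne : M.index ≠ 0 := Subgroup.index_ne_zero_of_finite
  have hm : NeZero (gen M x y) := ⟨by
    rintro h0
    rw [h0] at hdvd
    exact hne (Nat.eq_zero_of_zero_dvd hdvd)⟩
  obtain ⟨τ, hτ⟩ := mkTD hM hab x y
  have hX : Re M x y x 1 0 := by
    unfold Re
    simp
  have hY : Re M x y y 0 1 := by
    unfold Re
    simp
  refine ⟨gen M x y, hm, τ, ⟨x, mem_gen_left M x y⟩, ⟨y, mem_gen_right M x y⟩, rfl, rfl,
    fun h => hp (h.trans hdvd), ?_, ?_, ?_, ?_, ?_⟩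
  · rw [(hτ ⟨x, mem_gen_left M x y⟩ 1 0 hX).1, Int.cast_one]
  · rw [(hτ ⟨x, mem_gen_left M x y⟩ 1 0 hX).2, Int.cast_zero]
  · rw [(hτ ⟨y, mem_gen_right M x y⟩ 0 1 hY).1, Int.cast_zero]
  · rw [(hτ ⟨y, mem_gen_right M x y⟩ 0 1 hY).2, Int.cast_one]
  · intro D f u v hg hd
    obtain ⟨a, b, hu⟩ := exists_re hM hab u.2
    obtain ⟨c, d, hv⟩ := exists_re hM hab v.2
    rw [(hτ u a b hu).1, (hτ u a b hu).2, (hτ v c d hv).1, (hτ v c d hv).2] at hd
    have hd' : ((gen M x y : ℕ) : ℤ) ∣ a * d - b * c - 1 := by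
      rw [← ZMod.intCast_zmod_eq_zero_iff_dvd]
      push_cast
      rw [mul_comm (b : ZMod (gen M x y)) (c : ZMod (gen M x y)), hd, sub_self]
    rw [T1_eq, T1_eq]
    refine Finset.sum_congr rfl fun σ _ => ?_
    exact chain_eq hM hab f σ hu hv hg hd'

end Pool.Agent.Lib.P0c8ca5.Mm
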