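import Mathlib
import Pool.Agent.Lib.P0c8ca5M.TwA

/-!
# Chains of subgroups of `M` in the twisted central extension
-/

set_option autoImplicit false

namespace Pool.Agent.Lib.P0c8ca5.Mm

open MonoidAlgebra Ps Bq Zz Gg

universe u v

variable {A : Type u} [Group A] {M Y : Subgroup A} {m : ℕ}

/-- the copy of a subgroup of `M` -/
def smap (τ : TD M Y m) (P : Subgroup A) : Subgroup (Tw τ) where
  carrier := {a | (a.g : A) ∈ P ∧ (a.g : A) ∈ M ∧ a.c = 0}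
  mul_mem' := by
    rintro a b ⟨h1, h2, h3⟩ ⟨h4, h5, h6⟩
    refine ⟨P.mul_mem h1 h4, M.mul_mem h2 h5, ?_⟩
    rw [Tw.mul_c, h3, h6, τ.i0 _ h2]
    ring
  one_mem' := ⟨P.one_mem, M.one_mem, rfl⟩
  inv_mem' := by
    rintro a ⟨h1, h2, h3⟩
    refine ⟨P.inv_mem h1, M.inv_mem h2, ?_⟩
    rw [Tw.inv_c', h3, τ.i0 _ h2]
    ring

variable {τ : TD M Y m}

theorem mem_smap {P : Subgroup A} {a : Tw τ} :
    a ∈ smap τ P ↔ (a.g : A) ∈ P ∧ (a.g : A) ∈ M ∧ a.c = 0 := Iff.rfl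

theorem mem_smap' {P : Subgroup A} (hP : P ≤ M) {a : Tw τ} :
    a ∈ smap τ P ↔ (a.g : A) ∈ P ∧ a.c = 0 :=
  ⟨fun h => ⟨h.1, h.2.2⟩, fun h => ⟨h.1, hP h.1, h.2⟩⟩

theorem smap_mono {P Q : Subgroup A} (h : P ≤ Q) : smap τ P ≤ smap τ Q :=
  fun _ ha => ⟨h ha.1, ha.2⟩

theorem smap_le_comap (P : Subgroup A) : smap τ P ≤ P.comap (Tw.pr τ) := fun _ ha => ha.1

theorem smap_le_iff (hMY : M ≤ Y) {P Q : Subgroup A} (hP : P ≤ M) :
    smap τ P ≤ smap τ Q ↔ P ≤ Q := by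
  constructor
  · intro h x hx
    exact (h (show (⟨⟨x, hMY (hP hx)⟩, 0⟩ : Tw τ) ∈ smap τ P from ⟨hx, hP hx, rfl⟩)).1
  · exact smap_mono

theorem smap_inj (hMY : M ≤ Y) {P Q : Subgroup A} (hP : P ≤ M) (hQ : Q ≤ M)
    (h : smap τ P = smap τ Q) : P = Q :=
  le_antisymm ((smap_le_iff hMY hP).1 h.le) ((smap_le_iff hMY hQ).1 h.ge)

theorem smap_bot : smap τ (⊥ : Subgroup A) = ⊥ := by
  rw [eq_bot_iff]
  rintro a ⟨h1, -, h3⟩
  rw [Subgroup.mem_bot] at h1 ⊢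
  exact Tw.ext (Subtype.ext h1) h3

theorem smap_ne_bot (hMY : M ≤ Y) {P : Subgroup A} (hP : P ≤ M) (h : P ≠ ⊥) : smap τ P ≠ ⊥ := by
  intro h0
  apply h
  apply smap_inj (τ := τ) hMY hP bot_le
  rw [h0, smap_bot]

theorem smap_sup (hMY : M ≤ Y) {P Q : Subgroup A} (hP : P ≤ M) (hQ : Q ≤ M) :
    smap τ (P ⊔ Q) = smap τ P ⊔ smap τ Q := by
  apply le_antisymm
  · let S : Subgroup A := ((smap τ P ⊔ smap τ Q).map (Tw.pr τ))
    have hle : smap τ P ⊔ smap τ Q ≤ smap τ M :=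
      sup_le (smap_mono hP) (smap_mono hQ)
    have h1 : P ⊔ Q ≤ S := by
      refine sup_le (fun x hx => ?_) (fun x hx => ?_)
      · exact ⟨⟨⟨x, hMY (hP hx)⟩, 0⟩, le_sup_left (a := smap τ P) ⟨hx, hP hx, rfl⟩, rfl⟩
      · exact ⟨⟨⟨x, hMY (hQ hx)⟩, 0⟩, le_sup_right (b := smap τ Q) ⟨hx, hQ hx, rfl⟩, rfl⟩
    rintro a ⟨ha1, -, ha3⟩
    obtain ⟨b, hb, hba⟩ := h1 ha1
    have hb' := hle hb
    have e : b = a := Tw.ext (Subtype.ext hba) (by rw [hb'.2.2, ha3])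
    rwa [← e]
  · exact sup_le (smap_mono le_sup_left) (smap_mono le_sup_right)

theorem smap_isPGroup {p : ℕ} {P : Subgroup A} (hP : IsPGroup p P) : IsPGroup p (smap τ P) := by
  rintro ⟨a, ha⟩
  obtain ⟨n, hn⟩ := hP ⟨a.g, ha.1⟩
  refine ⟨n, Subtype.ext ?_⟩
  have h1 : ((a.g : A)) ^ p ^ n = 1 := congrArg Subtype.val hn
  have h2 : (a ^ p ^ n) ∈ smap τ P := Subgroup.pow_mem _ ha _
  apply Tw.ext
  · apply Subtype.ext
    have h3 : ((a ^ p ^ n).g : A) = (a.g : A) ^ p ^ n := map_pow (Tw.pr τ) a _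
    show ((a ^ p ^ n).g : A) = 1
    rw [h3, h1]
  · exact h2.2.2

theorem mem_normalizer_smap (hMY : M ≤ Y) {P : Subgroup A} (hP : P ≤ M)
    (hn : Y ≤ Subgroup.normalizer (M : Set A)) {a : Tw τ} :
    a ∈ Subgroup.normalizer (smap τ P : Set (Tw τ)) ↔
      (a.g : A) ∈ Subgroup.normalizer (P : Set A) := by
  rw [Subgroup.mem_normalizer_iff, Subgroup.mem_normalizer_iff]
  have hM : ∀ x : A, x ∈ M ↔ (a.g : A) * x * (a.g : A)⁻¹ ∈ M :=
    Subgroup.mem_normalizer_iff.1 (hn a.g.2)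
  constructor
  · intro h x
    constructor
    · intro hx
      have h1 := (h (⟨⟨x, hMY (hP hx)⟩, 0⟩ : Tw τ)).1 ⟨hx, hP hx, rfl⟩
      exact h1.1
    · intro hx
      have hxM : x ∈ M := (hM x).2 (hP hx)
      have h1 := (h (⟨⟨x, hMY hxM⟩, 0⟩ : Tw τ)).2 ⟨hx, hP hx, Tw.conj_c _ _ hxM⟩
      exact h1.1
  · intro h b
    constructor
    · rintro ⟨h1, h2, h3⟩
      refine ⟨(h _).1 h1, (hM _).1 h2, ?_⟩
      rw [Tw.conj_c _ _ h2, h3]
    · rintro ⟨h1, h2, h3⟩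
      have h2' : (b.g : A) ∈ M := (hM _).2 h2
      refine ⟨(h _).2 h1, h2', ?_⟩
      rwa [Tw.conj_c _ _ h2'] at h3

theorem mem_centralizer_smap (hMY : M ≤ Y) {P : Subgroup A} (hP : P ≤ M) {a : Tw τ} :
    a ∈ Subgroup.centralizer (smap τ P : Set (Tw τ)) ↔
      (a.g : A) ∈ Subgroup.centralizer (P : Set A) := by
  rw [Subgroup.mem_centralizer_iff, Subgroup.mem_centralizer_iff]
  constructor
  · intro h x hx
    exact congrArg (Tw.pr τ) (h (⟨⟨x, hMY (hP hx)⟩, 0⟩ : Tw τ) ⟨hx, hP hx, rfl⟩)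
  · rintro h b ⟨h1, h2, h3⟩
    apply Tw.ext
    · exact Subtype.ext (h _ h1)
    · rw [Tw.mul_c, Tw.mul_c, h3, τ.i0 _ h2, τ.j0 _ h2]
      ring

theorem smap_cg (hn : Y ≤ Subgroup.normalizer (M : Set A)) {P : Subgroup A} (a : Tw τ) :
    smap τ (cg (a.g : A) P) = cg a (smap τ P) := by
  ext b
  rw [Jj.mem_cj, mem_smap, mem_smap, Jj.mem_cj]
  have hM : ∀ x : A, x ∈ M ↔ (a.g : A)⁻¹ * x * (a.g : A) ∈ M := by
    intro x
    have h1 := Subgroup.mem_normalizer_iff.1 (inv_mem (hn a.g.2)) x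
    rwa [inv_inv] at h1
  have hg : ((a⁻¹ * b * a).g : A) = (a.g : A)⁻¹ * b.g * a.g := rfl
  rw [hg, ← hM]
  constructor
  · rintro ⟨h1, h2, h3⟩
    refine ⟨h1, h2, ?_⟩
    have h4 := Tw.conj_c a⁻¹ b h2
    rw [inv_inv] at h4
    rw [h4, h3]
  · rintro ⟨h1, h2, h3⟩
    refine ⟨h1, h2, ?_⟩
    have h4 := Tw.conj_c a⁻¹ b h2
    rw [inv_inv] at h4
    rwa [← h4]

open Classical in
/-- the copy of a chain -/
noncomputable def smc (τ : TD M Y m) (σ : Finset (Subgroup A)) : Finset (Subgroup (Tw τ)) :=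
  σ.image (smap τ)

theorem mem_smc {σ : Finset (Subgroup A)} {P : Subgroup (Tw τ)} :
    P ∈ smc τ σ ↔ ∃ Q ∈ σ, smap τ Q = P := by
  classical
  rw [smc, Finset.mem_image]

theorem smc_sup (hMY : M ≤ Y) {σ : Finset (Subgroup A)} (hσ : ∀ Q ∈ σ, Q ≤ M) :
    (smc τ σ).sup id = smap τ (σ.sup id) := by
  classical
  rw [smc, Finset.sup_image]
  induction σ using Finset.induction_on with
  | empty => rw [Finset.sup_empty, Finset.sup_empty, smap_bot]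
  | insert Q σ _ ih =>
    rw [Finset.sup_insert, Finset.sup_insert, ih fun Q hQ => hσ Q (Finset.mem_insert_of_mem hQ)]
    have h1 : σ.sup id ≤ M := Finset.sup_le fun Q hQ => hσ Q (Finset.mem_insert_of_mem hQ)
    rw [id_eq, smap_sup hMY (hσ Q (Finset.mem_insert_self Q σ)) h1]
    rfl

theorem smc_card (hMY : M ≤ Y) {σ : Finset (Subgroup A)} (hσ : ∀ Q ∈ σ, Q ≤ M) :
    (smc τ σ).card = σ.card := by
  classical
  rw [smc, Finset.card_image_of_injOn]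
  intro P hP Q hQ h
  exact smap_inj hMY (hσ P hP) (hσ Q hQ) h

theorem smc_stab (hMY : M ≤ Y) (hn : Y ≤ Subgroup.normalizer (M : Set A))
    {σ : Finset (Subgroup A)} (hσ : ∀ Q ∈ σ, Q ≤ M) (X : Subgroup A) :
    stab (X.comap (Tw.pr τ)) (smc τ σ) = (stab X σ).comap (Tw.pr τ) := by
  ext a
  rw [mem_stab, Subgroup.mem_comap, Subgroup.mem_comap, mem_stab]
  refine and_congr_right fun _ => ?_
  constructor
  · intro h Q hQ
    exact (mem_normalizer_smap hMY (hσ Q hQ) hn).1 (h _ (mem_smc.2 ⟨Q, hQ, rfl⟩))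
  · intro h P hP
    obtain ⟨Q, hQ, rfl⟩ := mem_smc.1 hP
    exact (mem_normalizer_smap hMY (hσ Q hQ) hn).2 (h Q hQ)

theorem smc_stab_top (hMY : M ≤ Y) (hn : Y ≤ Subgroup.normalizer (M : Set A))
    {σ : Finset (Subgroup A)} (hσ : ∀ Q ∈ σ, Q ≤ M) :
    stab ⊤ (smc τ σ) = (stab Y σ).comap (Tw.pr τ) := by
  have h1 : Y.comap (Tw.pr τ) = ⊤ := by
    rw [eq_top_iff]
    intro a _
    exact a.g.2
  rw [← smc_stab hMY hn hσ, h1]

/-- the chains of the copies are the copies of the chains -/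
theorem sum_smc (hMY : M ≤ Y) {D : Finset (Subgroup A)} (hD : ∀ Q ∈ D, Q ≤ M)
    {R : Type*} [AddCommMonoid R] (F : Finset (Subgroup (Tw τ)) → R) :
    ∑ σ ∈ Ch (smc τ D), F σ = ∑ σ ∈ Ch D, F (smc τ σ) := by
  classical
  symm
  apply Finset.sum_bij (fun σ _ => smc τ σ)
  · intro σ hσ
    rw [InvAux.mem_Ch] at hσ ⊢
    constructor
    · exact Finset.image_subset_image hσ.1
    · intro P hP Q hQ hne
      obtain ⟨P, hP', rfl⟩ := mem_smc.1 hP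
      obtain ⟨Q, hQ', rfl⟩ := mem_smc.1 hQ
      rcases hσ.2 hP' hQ' (fun h => hne (by rw [h])) with h | h
      · exact Or.inl (smap_mono h)
      · exact Or.inr (smap_mono h)
  · intro σ hσ σ' hσ' h
    rw [InvAux.mem_Ch] at hσ hσ'
    have key : ∀ {σ σ' : Finset (Subgroup A)}, σ ⊆ D → σ' ⊆ D → smc τ σ = smc τ σ' → σ ⊆ σ' := by
      intro σ σ' h1 h2 h P hP
      have h3 : smap τ P ∈ smc τ σ' := by
        rw [← h]
        exact mem_smc.2 ⟨P, hP, rfl⟩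
      obtain ⟨Q, hQ, hQP⟩ := mem_smc.1 h3
      rwa [← smap_inj hMY (hD Q (h2 hQ)) (hD P (h1 hP)) hQP]
    exact Finset.Subset.antisymm (key hσ.1 hσ'.1 h) (key hσ'.1 hσ.1 h.symm)
  · intro σ' hσ'
    rw [InvAux.mem_Ch] at hσ'
    refine ⟨D.filter (fun P => smap τ P ∈ σ'), ?_, ?_⟩
    · rw [InvAux.mem_Ch]
      refine ⟨Finset.filter_subset _ _, ?_⟩
      intro P hP Q hQ hne
      obtain ⟨h1, h2⟩ := Finset.mem_filter.1 hP
      obtain ⟨h3, h4⟩ := Finset.mem_filter.1 hQ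
      rcases hσ'.2 h2 h4 (fun h => hne (smap_inj hMY (hD P h1) (hD Q h3) h)) with h | h
      · exact Or.inl ((smap_le_iff hMY (hD P h1)).1 h)
      · exact Or.inr ((smap_le_iff hMY (hD Q h3)).1 h)
    · ext P
      rw [mem_smc]
      constructor
      · rintro ⟨Q, hQ, rfl⟩
        exact (Finset.mem_filter.1 hQ).2
      · intro hP
        obtain ⟨Q, hQ, rfl⟩ := mem_smc.1 (hσ'.1 hP)
        exact ⟨Q, Finset.mem_filter.2 ⟨hQ, hP⟩, rfl⟩
  · intro σ _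
    rfl

end Pool.Agent.Lib.P0c8ca5.Mm
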