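import Mathlib
import Pool.Agent.Lib.P0c8ca5M.TwB

/-!
# The group algebra of the twisted central extension
-/

set_option autoImplicit false

namespace Pool.Agent.Lib.P0c8ca5.Mm

open MonoidAlgebra Ps Bq Zz Gg

universe u v

variable {k : Type v} [Field k] {A : Type u} [Group A] {M Y : Subgroup A} {m : ℕ} [NeZero m]
  [Finite A]

/-- the element `a` of `kA` times the idempotent of `χ` -/
noncomputable def twA (τ : TD M Y m) (χ : AddChar (ZMod m) k) (a : MonoidAlgebra k A) :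
    MonoidAlgebra k (Tw τ) :=
  MonoidAlgebra.ofCoeff (Finsupp.equivFunOnFinite.symm fun b =>
    (m : k)⁻¹ * χ (-b.c) * a.coeff (b.g : A))

variable {τ : TD M Y m} {χ : AddChar (ZMod m) k}

theorem coeff_twA (a : MonoidAlgebra k A) (b : Tw τ) :
    (twA τ χ a).coeff b = (m : k)⁻¹ * χ (-b.c) * a.coeff (b.g : A) := by
  rw [twA, coeff_ofCoeff, Finsupp.equivFunOnFinite_symm_apply_apply]

theorem chi_ne_zero (c : ZMod m) : χ c ≠ 0 := by
  intro h
  have h1 : χ (c + -c) = 1 := by rw [add_neg_cancel, AddChar.map_zero_eq_one]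
  rw [AddChar.map_add_eq_mul, h, zero_mul] at h1
  exact zero_ne_one h1

theorem chi_neg (c : ZMod m) : χ (-c) = (χ c)⁻¹ := by
  apply eq_inv_of_mul_eq_one_left
  rw [← AddChar.map_add_eq_mul, neg_add_cancel, AddChar.map_zero_eq_one]

theorem coeff_twA_ne (hm : (m : k) ≠ 0) {a : MonoidAlgebra k A} {b : Tw τ} :
    (twA τ χ a).coeff b ≠ 0 ↔ a.coeff (b.g : A) ≠ 0 := by
  rw [coeff_twA]
  constructor
  · exact right_ne_zero_of_mul
  · exact mul_ne_zero (mul_ne_zero (inv_ne_zero hm) (chi_ne_zero _))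

theorem twA_suppIn {N : Subgroup A} {a : MonoidAlgebra k A} (ha : SuppIn N a) :
    SuppIn (N.comap (Tw.pr τ)) (twA τ χ a) := by
  intro b hb
  rw [coeff_twA] at hb
  exact ha _ (right_ne_zero_of_mul hb)

theorem twA_zero : twA τ χ (0 : MonoidAlgebra k A) = 0 := by
  ext b
  rw [coeff_twA, coeff_zero, coeff_zero, Finsupp.zero_apply, Finsupp.zero_apply, mul_zero]

theorem twA_eq_zero (hm : (m : k) ≠ 0) {a : MonoidAlgebra k A} (ha : SuppIn Y a)
    (h : twA τ χ a = 0) : a = 0 := by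
  ext x
  by_contra hx
  have hx' : a.coeff x ≠ 0 := hx
  have h1 := (coeff_twA_ne (τ := τ) (χ := χ) hm (b := ⟨⟨x, ha x hx'⟩, 0⟩)).2 hx'
  rw [h] at h1
  exact h1 rfl

theorem twA_inj (hm : (m : k) ≠ 0) {a b : MonoidAlgebra k A} (ha : SuppIn Y a) (hb : SuppIn Y b)
    (h : twA τ χ a = twA τ χ b) : a = b := by
  ext x
  by_cases hx : x ∈ Y
  · have h1 := congrArg (fun z => z.coeff (⟨⟨x, hx⟩, 0⟩ : Tw τ)) h
    simp only [coeff_twA] at h1
    exact mul_left_cancel₀ (mul_ne_zero (inv_ne_zero hm) (chi_ne_zero _)) h1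
  · have h1 : a.coeff x = 0 := by
      by_contra h0
      exact hx (ha x h0)
    have h2 : b.coeff x = 0 := by
      by_contra h0
      exact hx (hb x h0)
    rw [h1, h2]

theorem twA_invBy (hn : Y ≤ Subgroup.normalizer (M : Set A)) {X : Subgroup A}
    {a : MonoidAlgebra k A} (ha : SuppIn M a) (hi : InvBy X a) :
    InvBy (X.comap (Tw.pr τ)) (twA τ χ a) := by
  intro g hg b
  by_cases hb : (b.g : A) ∈ M
  · rw [coeff_twA, coeff_twA, Tw.conj_c _ _ hb]
    congr 1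
    exact hi _ hg _
  · have h1 : a.coeff (b.g : A) = 0 := by
      by_contra h0
      exact hb (ha _ h0)
    have h2 : a.coeff ((g * b * g⁻¹).g : A) = 0 := by
      by_contra h0
      exact hb ((Subgroup.mem_normalizer_iff.1 (hn g.g.2) _).2 (ha _ h0))
    rw [coeff_twA, coeff_twA, h1, h2, mul_zero, mul_zero]

theorem twA_mul [Fintype A] (hMY : M ≤ Y) (hm : (m : k) ≠ 0) {a : MonoidAlgebra k A}
    (ha : SuppIn M a) (b : MonoidAlgebra k A) : twA τ χ a * twA τ χ b = twA τ χ (a * b) := by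
  classical
  ext z
  rw [coeff_mul_fin, coeff_twA, coeff_mul_fin]
  have h1 : ∀ y : Tw τ, (twA τ χ a).coeff y * (twA τ χ b).coeff (y⁻¹ * z) =
      (m : k)⁻¹ * ((m : k)⁻¹ * χ (-z.c) * (a.coeff (y.g : A) * b.coeff ((y.g : A)⁻¹ * z.g))) := by
    intro y
    by_cases hy : (y.g : A) ∈ M
    · rw [coeff_twA, coeff_twA]
      have h2 : (y⁻¹ * z).c = -y.c + z.c := by
        rw [Tw.mul_c, Tw.inv_c', Tw.inv_g', τ.i_inv, τ.i0 _ hy]
        ring
      have h3 : χ (-y.c) * χ (-(y⁻¹ * z).c) = χ (-z.c) := by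
        rw [← AddChar.map_add_eq_mul, h2]
        congr 1
        ring
      have h4 : ((y⁻¹ * z).g : A) = (y.g : A)⁻¹ * z.g := rfl
      rw [h4, ← h3]
      ring
    · have h2 : a.coeff (y.g : A) = 0 := by
        by_contra h0
        exact hy (ha _ h0)
      rw [coeff_twA, h2]
      ring
  rw [Finset.sum_congr rfl fun y _ => h1 y, ← Finset.mul_sum, ← Finset.mul_sum]
  have h5 : ∑ y : Tw τ, a.coeff (y.g : A) * b.coeff ((y.g : A)⁻¹ * z.g) =
      (m : k) * ∑ y : A, a.coeff y * b.coeff (y⁻¹ * z.g) := by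
    rw [← (Tw.equivProd τ).symm.sum_comp, Fintype.sum_prod_type]
    have h6 : ∀ (g : ↥Y) (c : ZMod m), a.coeff ((((Tw.equivProd τ).symm (g, c)).g : ↥Y) : A) *
        b.coeff (((((Tw.equivProd τ).symm (g, c)).g : ↥Y) : A)⁻¹ * z.g) =
        a.coeff (g : A) * b.coeff ((g : A)⁻¹ * z.g) := fun _ _ => rfl
    rw [Finset.sum_congr rfl fun g _ => Finset.sum_congr rfl fun c _ => h6 g c]
    simp only [Finset.sum_const, Finset.card_univ, ZMod.card, nsmul_eq_mul]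
    rw [← Finset.mul_sum]
    congr 1
    refine Fintype.sum_of_injective (fun y : ↥Y => (y : A)) Subtype.val_injective _ _ ?_
      (fun _ => rfl)
    intro y hy
    have h7 : a.coeff y = 0 := by
      by_contra h0
      exact hy ⟨⟨y, hMY (ha _ h0)⟩, rfl⟩
    rw [h7, zero_mul]
  rw [h5, ← mul_assoc, mul_comm ((m : k)⁻¹), mul_assoc]
  rw [show (m : k)⁻¹ * ((m : k) * ∑ y : A, a.coeff y * b.coeff (y⁻¹ * (z.g : A))) =
    ∑ y : A, a.coeff y * b.coeff (y⁻¹ * (z.g : A)) by rw [← mul_assoc, inv_mul_cancel₀ hm, one_mul]]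

/-- the support projection -/
theorem twA_cS (hMY : M ≤ Y) {P : Subgroup A} (hP : P ≤ M) (a : MonoidAlgebra k A) :
    cS (smap τ P) (twA τ χ a) = twA τ χ (cS P a) := by
  ext b
  rw [coeff_twA]
  by_cases hb : (b.g : A) ∈ Subgroup.centralizer (P : Set A)
  · have h1 : b ∈ Subgroup.centralizer (smap τ P : Set (Tw τ)) :=
      (mem_centralizer_smap hMY hP).2 hb
    rw [cS, coeff_resS_of_mem _ h1, cS, coeff_resS_of_mem _ hb, coeff_twA]
  · have h1 : b ∉ Subgroup.centralizer (smap τ P : Set (Tw τ)) := fun h =>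
      hb ((mem_centralizer_smap hMY hP).1 h)
    rw [cS, coeff_resS_of_notMem _ h1, cS, coeff_resS_of_notMem _ hb, mul_zero]

/-- the central elements act by the character -/
theorem single_mul_twA (a : MonoidAlgebra k A) (d : ZMod m) :
    single (⟨1, d⟩ : Tw τ) (1 : k) * twA τ χ a = χ d • twA τ χ a := by
  ext b
  rw [coeff_single_mul_apply, one_mul, coeff_smul_apply, coeff_twA, coeff_twA, smul_eq_mul]
  have h1 : (((⟨1, d⟩ : Tw τ)⁻¹ * b).g : A) = b.g := by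
    show ((1 : ↥Y)⁻¹ * b.g : ↥Y) = (b.g : A)
    rw [inv_one, one_mul]
  have h2 : ((⟨1, d⟩ : Tw τ)⁻¹ * b).c = -d + b.c := by
    rw [Tw.mul_c, Tw.inv_c', Tw.inv_g']
    show -d + τ.i 1 * τ.j 1 + b.c + τ.i 1⁻¹ * τ.j b.g = _
    rw [inv_one, τ.i_one]
    ring
  rw [h1, h2]
  have h3 : χ (-(-d + b.c)) = χ d * χ (-b.c) := by
    rw [← AddChar.map_add_eq_mul]
    congr 1
    ring
  rw [h3]
  ring

theorem commute_ker (d : ZMod m) (f : MonoidAlgebra k (Tw τ)) :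
    single (⟨1, d⟩ : Tw τ) (1 : k) * f = f * single (⟨1, d⟩ : Tw τ) (1 : k) := by
  have hc : (⟨1, d⟩ : Tw τ) ∈ Subgroup.center (Tw τ) := Tw.ker_le_center (Tw.mem_ker.2 rfl)
  ext b
  rw [coeff_single_mul_apply, coeff_mul_single_apply, one_mul, mul_one]
  congr 1
  have h1 := Subgroup.mem_center_iff.1 (inv_mem hc) b
  exact h1.symm

/-- the elements of the ideal of `χ` come from `kA` -/
theorem exists_twA (hm : (m : k) ≠ 0) {N : Subgroup A} (hN : N ≤ M) (hMY : M ≤ Y)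
    {f : MonoidAlgebra k (Tw τ)} {e : MonoidAlgebra k A}
    (hf : f ∈ fixAlg k (N.comap (Tw.pr τ)) (N.comap (Tw.pr τ))) (hfe : f * twA τ χ e = f) :
    ∃ a ∈ fixAlg k N N, f = twA τ χ a := by
  obtain ⟨hs, hi⟩ := mem_fixAlg.1 hf
  have key : ∀ d : ZMod m, single (⟨1, d⟩ : Tw τ) (1 : k) * f = χ d • f := by
    intro d
    conv_lhs => rw [← hfe, ← mul_assoc, commute_ker, mul_assoc, single_mul_twA]
    rw [mul_smul_comm, hfe]
  classical
  let a : MonoidAlgebra k A := MonoidAlgebra.ofCoeff (Finsupp.equivFunOnFinite.symm fun x =>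
    if h : x ∈ Y then (m : k) * f.coeff (⟨⟨x, h⟩, 0⟩ : Tw τ) else 0)
  have ha : ∀ g : ↥Y, a.coeff (g : A) = (m : k) * f.coeff (⟨g, 0⟩ : Tw τ) := by
    intro g
    show (MonoidAlgebra.ofCoeff (Finsupp.equivFunOnFinite.symm fun x =>
      if h : x ∈ Y then (m : k) * f.coeff (⟨⟨x, h⟩, 0⟩ : Tw τ) else 0)).coeff (g : A) = _
    rw [coeff_ofCoeff, Finsupp.equivFunOnFinite_symm_apply_apply, dif_pos g.2]
  have ha0 : ∀ x : A, x ∉ Y → a.coeff x = 0 := by
    intro x hx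
    show (MonoidAlgebra.ofCoeff (Finsupp.equivFunOnFinite.symm fun x =>
      if h : x ∈ Y then (m : k) * f.coeff (⟨⟨x, h⟩, 0⟩ : Tw τ) else 0)).coeff x = _
    rw [coeff_ofCoeff, Finsupp.equivFunOnFinite_symm_apply_apply, dif_neg hx]
  refine ⟨a, mem_fixAlg.2 ⟨?_, ?_⟩, ?_⟩
  · intro x hx
    by_cases h : x ∈ Y
    · have h1 := ha ⟨x, h⟩
      rw [h1] at hx
      exact hs _ (right_ne_zero_of_mul hx)
    · exact absurd (ha0 x h) hx
  · intro g hg x
    by_cases h : x ∈ Y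
    · have hgY := hMY (hN hg)
      have h1 : g * x * g⁻¹ ∈ Y := Y.mul_mem (Y.mul_mem hgY h) (Y.inv_mem hgY)
      have h2 := ha ⟨x, h⟩
      have h3 := ha ⟨g * x * g⁻¹, h1⟩
      rw [h2, h3]
      have h4 := hi (⟨⟨g, hgY⟩, 0⟩ : Tw τ) hg (⟨⟨x, h⟩, 0⟩ : Tw τ)
      rw [← h4]
      congr 2
      apply Tw.ext
      · rfl
      · rw [Tw.mul_c, Tw.mul_c, Tw.inv_c', Tw.mul_g, Tw.inv_g', τ.j_inv]
        show (0 : ZMod m) = 0 + 0 + τ.i ⟨g, hgY⟩ * _ + (-0 + τ.i ⟨g, hgY⟩ * _) + _ * -τ.j ⟨g, hgY⟩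
        rw [τ.i0 ⟨g, hgY⟩ (hN hg), τ.j0 ⟨g, hgY⟩ (hN hg)]
        ring
    · have hgY := hMY (hN hg)
      have h1 : g * x * g⁻¹ ∉ Y := by
        intro h0
        apply h
        have h2 := Y.mul_mem (Y.mul_mem (Y.inv_mem hgY) h0) hgY
        have e : g⁻¹ * (g * x * g⁻¹) * g = x := by group
        rwa [e] at h2
      rw [ha0 _ h, ha0 _ h1]
  · ext b
    rw [coeff_twA, ha]
    have h1 := congrArg (fun z => z.coeff b) (key b.c)
    simp only [coeff_single_mul_apply, one_mul, coeff_smul_apply, smul_eq_mul] at h1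
    have h2 : (⟨1, b.c⟩ : Tw τ)⁻¹ * b = ⟨b.g, 0⟩ := by
      apply Tw.ext
      · show (1 : ↥Y)⁻¹ * b.g = b.g
        rw [inv_one, one_mul]
      · rw [Tw.mul_c, Tw.inv_c', Tw.inv_g']
        show -b.c + τ.i 1 * τ.j 1 + b.c + τ.i 1⁻¹ * τ.j b.g = 0
        rw [inv_one, τ.i_one]
        ring
    rw [h2] at h1
    rw [h1, chi_neg]
    field_simp [chi_ne_zero (χ := χ) b.c]

/-- blocks -/
theorem twA_block [Fintype A] (hm : (m : k) ≠ 0) {N : Subgroup A} (hN : N ≤ M) (hMY : M ≤ Y)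
    (hn : Y ≤ Subgroup.normalizer (M : Set A)) {e : MonoidAlgebra k A} (he : IsBlock N e) :
    IsBlock (N.comap (Tw.pr τ)) (twA τ χ e) := by
  have heM : SuppIn M e := he.suppIn.mono hN
  refine ⟨mem_fixAlg.2 ⟨twA_suppIn he.suppIn, twA_invBy hn heM he.invBy⟩, ?_, ?_, ?_⟩
  · rw [twA_mul hMY hm heM, he.idem]
  · intro h0
    exact he.ne_zero (twA_eq_zero hm (heM.mono hMY) h0)
  · intro f hf hff hfe
    obtain ⟨a, ha, rfl⟩ := exists_twA hm hN hMY hf hfe
    have haM : SuppIn M a := (mem_fixAlg.1 ha).1.mono hN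
    rw [twA_mul hMY hm haM] at hff hfe
    have h1 : SuppIn Y (a * a) := (haM.mul haM).mono hMY
    have h2 : SuppIn Y (a * e) := (haM.mul heM).mono hMY
    have h3 := twA_inj hm h1 (haM.mono hMY) hff
    have h4 := twA_inj hm h2 (haM.mono hMY) hfe
    rcases he.prim a ha h3 h4 with h5 | h5
    · left
      rw [h5, twA_zero]
    · right
      rw [h5]

theorem twA_hasBr (hm : (m : k) ≠ 0) (hMY : M ≤ Y) {P : Subgroup A} (hP : P ≤ M)
    {e : MonoidAlgebra k A} (he : SuppIn Y e) (h : HasBr P e) : HasBr (smap τ P) (twA τ χ e) := by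
  obtain ⟨x, hx, hex⟩ := h
  refine ⟨⟨⟨x, he x hex⟩, 0⟩, (mem_centralizer_smap hMY hP).2 hx, ?_⟩
  exact (coeff_twA_ne hm).2 hex

end Pool.Agent.Lib.P0c8ca5.Mm
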