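import Mathlib
import Pool.Agent.Lib.P0c8ca5M.TwC

/-!
# Representations of the twisted central extension
-/

set_option autoImplicit false

namespace Pool.Agent.Lib.P0c8ca5.Mm

open MonoidAlgebra Ps Bq Zz Gg

universe u v

variable {k : Type v} [Field k] {A : Type u} [Group A] {M Y : Subgroup A} {m : ℕ} [NeZero m]
  [Finite A] {τ : TD M Y m} {χ : AddChar (ZMod m) k} {N : Subgroup A}

/-- the representation `ρ` times the character `χ` -/
def twR (τ : TD M Y m) (χ : AddChar (ZMod m) k) (hN : N ≤ M) {V : Type*} [AddCommGroup V]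
    [Module k V] (ρ : Representation k N V) :
    Representation k ↥(N.comap (Tw.pr τ)) V where
  toFun b := χ b.1.c • ρ ⟨(b.1.g : A), b.2⟩
  map_one' := by
    have h1 : (⟨((1 : ↥(N.comap (Tw.pr τ))).1.g : A), (1 : ↥(N.comap (Tw.pr τ))).2⟩ : N) = 1 := rfl
    have h2 : ((1 : ↥(N.comap (Tw.pr τ))).1).c = 0 := rfl
    rw [h1, h2, map_one, AddChar.map_zero_eq_one, one_smul]
  map_mul' a b := by
    have h1 : (⟨((a * b).1.g : A), (a * b).2⟩ : N) =
        ⟨(a.1.g : A), a.2⟩ * ⟨(b.1.g : A), b.2⟩ := rfl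
    have h2 : ((a * b).1).c = a.1.c + b.1.c := by
      show (a.1 * b.1).c = _
      rw [Tw.mul_c, τ.i0 _ (hN a.2)]
      ring
    rw [h1, h2, map_mul, AddChar.map_add_eq_mul, smul_mul_smul_comm]

variable (hN : N ≤ M)

theorem twR_apply {V : Type*} [AddCommGroup V] [Module k V] (ρ : Representation k N V)
    (b : ↥(N.comap (Tw.pr τ))) (v : V) :
    twR τ χ hN ρ b v = χ b.1.c • ρ ⟨(b.1.g : A), b.2⟩ v := rfl

theorem twR_irr (hMY : M ≤ Y) {V : Type*} [AddCommGroup V] [Module k V]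
    {ρ : Representation k N V} : Irr' (twR τ χ hN ρ) ↔ Irr' ρ := by
  have key : ∀ W : Submodule k V, (∀ b, ∀ w ∈ W, twR τ χ hN ρ b w ∈ W) ↔
      ∀ g, ∀ w ∈ W, ρ g w ∈ W := by
    intro W
    constructor
    · intro h g w hw
      have h1 := h ⟨⟨⟨g, hMY (hN g.2)⟩, 0⟩, g.2⟩ w hw
      rw [twR_apply] at h1
      change χ 0 • ρ g w ∈ W at h1
      rwa [AddChar.map_zero_eq_one, one_smul] at h1
    · intro h b w hw
      rw [twR_apply]
      exact W.smul_mem _ (h _ w hw)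
  constructor
  · intro h
    exact ⟨h.nontriv, fun W hW => h.sub W ((key W).2 hW)⟩
  · intro h
    exact ⟨h.nontriv, fun W hW => h.sub W ((key W).1 hW)⟩

theorem twR_iso (hMY : M ≤ Y) {V V' : Type*} [AddCommGroup V] [Module k V] [AddCommGroup V']
    [Module k V'] {ρ : Representation k N V} {ρ' : Representation k N V'} :
    Iso (twR τ χ hN ρ) (twR τ χ hN ρ') ↔ Iso ρ ρ' := by
  constructor
  · rintro ⟨P, hP⟩
    refine ⟨P, fun g v => ?_⟩
    have h1 := hP ⟨⟨⟨g, hMY (hN g.2)⟩, 0⟩, g.2⟩ v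
    rw [twR_apply, twR_apply] at h1
    change P (χ 0 • ρ g v) = χ 0 • ρ' g (P v) at h1
    rwa [AddChar.map_zero_eq_one, one_smul, one_smul] at h1
  · rintro ⟨P, hP⟩
    refine ⟨P, fun b v => ?_⟩
    rw [twR_apply, twR_apply, map_smul, hP]

theorem twR_act (hMY : M ≤ Y) (hm : (m : k) ≠ 0) {V : Type*} [AddCommGroup V] [Module k V]
    (ρ : Representation k N V) (a : MonoidAlgebra k A) :
    act (twR τ χ hN ρ) (twA τ χ a) = act ρ a := by
  classical
  have : Fintype ↥N := Fintype.ofFinite _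
  have : Fintype ↥(N.comap (Tw.pr τ)) := Fintype.ofFinite _
  apply LinearMap.ext
  intro v
  rw [act_apply, act_apply]
  let e : ↥(N.comap (Tw.pr τ)) ≃ ↥N × ZMod m :=
    { toFun := fun a => (⟨(a.1.g : A), a.2⟩, a.1.c)
      invFun := fun a => ⟨⟨⟨a.1, hMY (hN a.1.2)⟩, a.2⟩, a.1.2⟩
      left_inv := fun _ => rfl
      right_inv := fun _ => rfl }
  rw [← e.symm.sum_comp, Fintype.sum_prod_type]
  refine Finset.sum_congr rfl fun g _ => ?_
  have h1 : ∀ c : ZMod m, (twA τ χ a).coeff ((e.symm (g, c) : ↥(N.comap (Tw.pr τ))) : Tw τ) •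
      twR τ χ hN ρ (e.symm (g, c)) v = (m : k)⁻¹ • (a.coeff (g : A) • ρ g v) := by
    intro c
    rw [coeff_twA, twR_apply, smul_smul, smul_smul]
    change ((m : k)⁻¹ * χ (-c) * a.coeff (g : A) * χ c) • ρ g v = _
    congr 1
    have h2 : χ (-c) * χ c = 1 := by
      rw [← AddChar.map_add_eq_mul, neg_add_cancel, AddChar.map_zero_eq_one]
    calc (m : k)⁻¹ * χ (-c) * a.coeff (g : A) * χ c
        = (m : k)⁻¹ * a.coeff (g : A) * (χ (-c) * χ c) := by ring
      _ = (m : k)⁻¹ * a.coeff (g : A) := by rw [h2, mul_one]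
  rw [Finset.sum_congr rfl fun c _ => h1 c, Finset.sum_const, Finset.card_univ, ZMod.card,
    ← Nat.cast_smul_eq_nsmul k, smul_smul, mul_inv_cancel₀ hm, one_smul]

/-- every representation in the ideal of `χ` comes from `N` -/
theorem exists_twR (hMY : M ≤ Y) {V : Type*} [AddCommGroup V] [Module k V]
    {σ : Representation k ↥(N.comap (Tw.pr τ)) V} {e : MonoidAlgebra k A}
    (h : act σ (twA τ χ e) = 1) : ∃ ρ : Representation k N V, σ = twR τ χ hN ρ := by
  -- the central elements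
  have hK : ∀ d : ZMod m, (⟨1, d⟩ : Tw τ) ∈ N.comap (Tw.pr τ) := fun d => N.one_mem
  have hz : ∀ d : ZMod m, σ ⟨⟨1, d⟩, hK d⟩ = χ d • (1 : V →ₗ[k] V) := by
    intro d
    have h1 : act σ (single (⟨1, d⟩ : Tw τ) (1 : k) * twA τ χ e) =
        act σ (single (⟨1, d⟩ : Tw τ) (1 : k)) * act σ (twA τ χ e) := by
      apply act_mul
      intro x hx
      by_cases h0 : x = (⟨1, d⟩ : Tw τ)
      · rw [h0]; exact hK d
      · rw [coeff_single, Finsupp.single_eq_of_ne h0] at hx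
        exact absurd rfl hx
    have h2 : act σ (single (⟨1, d⟩ : Tw τ) (1 : k)) = σ ⟨⟨1, d⟩, hK d⟩ := by
      classical
      have : Fintype ↥(N.comap (Tw.pr τ)) := Fintype.ofFinite _
      apply LinearMap.ext
      intro v
      rw [act_apply, Finset.sum_eq_single ⟨⟨1, d⟩, hK d⟩]
      · rw [coeff_single, Finsupp.single_eq_same, one_smul]
      · intro b _ hb
        rw [coeff_single, Finsupp.single_eq_of_ne, zero_smul]
        intro h0
        exact hb (Subtype.ext h0)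
      · intro h0
        exact absurd (Finset.mem_univ _) h0
    have h3 : act σ (χ d • twA τ χ e) = χ d • act σ (twA τ χ e) := by
      have : Fintype ↥(N.comap (Tw.pr τ)) := Fintype.ofFinite _
      apply LinearMap.ext
      intro v
      rw [act_apply, LinearMap.smul_apply, act_apply, Finset.smul_sum]
      refine Finset.sum_congr rfl fun b _ => ?_
      rw [coeff_smul_apply, smul_eq_mul, mul_smul]
    rw [single_mul_twA, h3, h2, h, mul_one] at h1
    exact h1.symm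
  let f : ↥N →* ↥(N.comap (Tw.pr τ)) :=
    { toFun := fun g => ⟨⟨⟨g, hMY (hN g.2)⟩, 0⟩, g.2⟩
      map_one' := rfl
      map_mul' := by
        intro a b
        apply Subtype.ext
        apply Tw.ext
        · rfl
        · show (0 : ZMod m) = 0 + 0 + τ.i ⟨a, hMY (hN a.2)⟩ * τ.j ⟨b, hMY (hN b.2)⟩
          rw [τ.i0 _ (hN a.2)]
          ring }
  refine ⟨σ.comp f, ?_⟩
  apply MonoidHom.ext
  intro b
  apply LinearMap.ext
  intro v
  rw [twR_apply]
  have e1 : b = ⟨⟨1, b.1.c⟩, hK b.1.c⟩ * f ⟨(b.1.g : A), b.2⟩ := by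
    apply Subtype.ext
    apply Tw.ext
    · show b.1.g = 1 * b.1.g
      rw [one_mul]
    · show b.1.c = b.1.c + 0 + τ.i 1 * _
      rw [τ.i_one]
      ring
  conv_lhs => rw [e1, map_mul, hz]
  rfl

theorem twR_itw {V : Type*} [AddCommGroup V] [Module k V] (hMY : M ≤ Y)
    {ρ : Representation k N V} {b : Tw τ} {X : V ≃ₗ[k] V} :
    Itw (N.comap (Tw.pr τ)) (twR τ χ hN ρ) b X ↔ Itw N ρ (b.g : A) X := by
  constructor
  · intro h g g' hg v
    have h1 := h ⟨⟨⟨g, hMY (hN g.2)⟩, 0⟩, g.2⟩ ⟨⟨⟨g', hMY (hN g'.2)⟩, 0⟩, g'.2⟩ (by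
      apply Tw.ext
      · exact Subtype.ext hg
      · show (0 : ZMod m) = _
        rw [Tw.conj_c _ _ (hN g.2)]) v
    rw [twR_apply, twR_apply] at h1
    change X (χ 0 • ρ g v) = χ 0 • ρ g' (X v) at h1
    rwa [AddChar.map_zero_eq_one, one_smul, one_smul] at h1
  · intro h g g' hg v
    rw [twR_apply, twR_apply, map_smul]
    have h1 : (g'.1.g : A) = (b.g : A) * g.1.g * (b.g : A)⁻¹ := by
      rw [hg]; rfl
    have h2 : g'.1.c = g.1.c := by
      rw [hg, Tw.conj_c _ _ (hN g.2)]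
    rw [h ⟨(g.1.g : A), g.2⟩ ⟨(g'.1.g : A), g'.2⟩ h1, h2]

/-- the determinant of two elements -/
def TD.det (τ : TD M Y m) (u v : ↥Y) : ZMod m := τ.i u * τ.j v - τ.i v * τ.j u

theorem twR_omg {V : Type*} [AddCommGroup V] [Module k V] (hMY : M ≤ Y)
    {ρ : Representation k N V} {a b : Tw τ} {s : k} :
    Omg N ρ (a.g : A) (b.g : A) s ↔
      Omg (N.comap (Tw.pr τ)) (twR τ χ hN ρ) a b (χ (τ.det a.g b.g) * s) := by
  have hc : (b * a * b⁻¹ * a⁻¹).c = -τ.det a.g b.g := by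
    rw [Tw.comm_c, TD.det]
    ring
  constructor
  · rintro ⟨X, Z, z, hX, hZ, hz, h⟩
    have hz' : b * a * b⁻¹ * a⁻¹ ∈ N.comap (Tw.pr τ) := by
      show (b.g : A) * a.g * (b.g : A)⁻¹ * (a.g : A)⁻¹ ∈ N
      rw [← hz]
      exact z.2
    refine ⟨X, Z, ⟨_, hz'⟩, (twR_itw hN hMY).2 hX, (twR_itw hN hMY).2 hZ, rfl, fun v => ?_⟩
    rw [h, twR_apply]
    have h1 : (⟨((b * a * b⁻¹ * a⁻¹).g : A), hz'⟩ : N) = z := Subtype.ext hz.symm
    show s • ρ z (X (Z v)) = (χ (τ.det a.g b.g) * s) • (χ (b * a * b⁻¹ * a⁻¹).c •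
      ρ ⟨((b * a * b⁻¹ * a⁻¹).g : A), hz'⟩ (X (Z v)))
    rw [h1, hc, smul_smul]
    congr 1
    have h2 : χ (τ.det a.g b.g) * χ (-τ.det a.g b.g) = 1 := by
      rw [← AddChar.map_add_eq_mul, add_neg_cancel, AddChar.map_zero_eq_one]
    calc s = (χ (τ.det a.g b.g) * χ (-τ.det a.g b.g)) * s := by rw [h2, one_mul]
      _ = _ := by ring
  · rintro ⟨X, Z, ⟨z, hz0⟩, hX, hZ, hz, h⟩
    have hz : z = b * a * b⁻¹ * a⁻¹ := hz
    subst hz
    refine ⟨X, Z, ⟨((b * a * b⁻¹ * a⁻¹).g : A), hz0⟩, (twR_itw hN hMY).1 hX,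
      (twR_itw hN hMY).1 hZ, rfl, fun v => ?_⟩
    rw [h, twR_apply]
    show (χ (τ.det a.g b.g) * s) • (χ (b * a * b⁻¹ * a⁻¹).c •
      ρ ⟨((b * a * b⁻¹ * a⁻¹).g : A), hz0⟩ (X (Z v))) = _
    rw [hc, smul_smul]
    congr 1
    have h2 : χ (τ.det a.g b.g) * χ (-τ.det a.g b.g) = 1 := by
      rw [← AddChar.map_add_eq_mul, add_neg_cancel, AddChar.map_zero_eq_one]
    calc χ (τ.det a.g b.g) * s * χ (-τ.det a.g b.g)
        = (χ (τ.det a.g b.g) * χ (-τ.det a.g b.g)) * s := by ring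
      _ = s := by rw [h2, one_mul]

end Pool.Agent.Lib.P0c8ca5.Mm
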