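import Mathlib
import Pool.Agent.Lib.P0c8ca5M.TwD
import Pool.Agent.Lib.P0c8ca5G.OmB

/-!
# The values of the pairs in the twisted central extension
-/

set_option autoImplicit false

namespace Pool.Agent.Lib.P0c8ca5.Mm

open MonoidAlgebra Ps Bq Zz Gg

universe u v

variable {p : ℕ} {k : Type v} [Field k] {A : Type u} [Group A] {M Y : Subgroup A} {m : ℕ}
  [NeZero m] [Finite A] {τ : TD M Y m} {χ : AddChar (ZMod m) k} {N : Subgroup A}

theorem mem_norm_comap {a : Tw τ} (h : (a.g : A) ∈ Subgroup.normalizer (N : Set A)) :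
    a ∈ Subgroup.normalizer ((N.comap (Tw.pr τ) : Subgroup (Tw τ)) : Set (Tw τ)) := by
  rw [Subgroup.mem_normalizer_iff] at h ⊢
  exact fun b => h _

theorem om_tw [IsAlgClosed k] (hN : N ≤ M) (hMY : M ≤ Y) {n : ℕ} {ρ : Rp k N n} (hρ : Irr' ρ)
    {a b : Tw τ} (ha : (a.g : A) ∈ Subgroup.normalizer (N : Set A))
    (hb : (b.g : A) ∈ Subgroup.normalizer (N : Set A)) :
    om (N.comap (Tw.pr τ)) (twR τ χ hN ρ) a b = χ (τ.det a.g b.g) * om N ρ (a.g : A) b.g := by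
  have hρ' : Irr' (twR τ χ hN ρ) := (twR_irr hN hMY).2 hρ
  by_cases h : ∃ s : k, Omg N ρ (a.g : A) (b.g : A) s
  · obtain ⟨s, hs⟩ := h
    rw [om_eq hρ ha hb hs]
    exact om_eq hρ' (mem_norm_comap ha) (mem_norm_comap hb) ((twR_omg hN hMY).1 hs)
  · have h' : ¬ ∃ s : k, Omg (N.comap (Tw.pr τ)) (twR τ χ hN ρ) a b s := by
      rintro ⟨s, hs⟩
      apply h
      refine ⟨(χ (τ.det a.g b.g))⁻¹ * s, (twR_omg (χ := χ) hN hMY).2 ?_⟩
      rwa [← mul_assoc, mul_inv_cancel₀ (chi_ne_zero _), one_mul]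
    rw [om, om, dif_neg h, dif_neg h', mul_zero]

/-- the irreducible representations in the ideal of `χ` -/
noncomputable def irxMap (τ : TD M Y m) (χ : AddChar (ZMod m) k) (hm : (m : k) ≠ 0) (hN : N ≤ M)
    (hMY : M ≤ Y) (e : MonoidAlgebra k A) (c : IrX N e) :
    IrX (N.comap (Tw.pr τ)) (twA τ χ e) :=
  ⟦mkIrr (twR τ χ hN (Quotient.out c).ρ) ((twR_irr hN hMY).2 (irr_iff.1 (Quotient.out c).irr))
    (by rw [twR_act hN hMY hm]; exact act_iff.2 (Quotient.out c).blk)⟧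

theorem irxMap_bij (hm : (m : k) ≠ 0) (hN : N ≤ M) (hMY : M ≤ Y) (e : MonoidAlgebra k A) :
    Function.Bijective (irxMap τ χ hm hN hMY e) := by
  constructor
  · intro c d h
    have h1 := mk_eq_mk.1 h
    have h2 : Iso (Quotient.out c).ρ (Quotient.out d).ρ := (twR_iso hN hMY).1 h1
    have h3 := mk_eq_mk.2 h2
    rwa [Quotient.out_eq, Quotient.out_eq] at h3
  · intro c
    obtain ⟨σ, rfl⟩ := Quotient.exists_rep c
    obtain ⟨ρ, hρ⟩ := exists_twR hN hMY (act_iff.2 σ.blk)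
    have hirr : Irr' ρ := (twR_irr (τ := τ) (χ := χ) hN hMY).1 (by
      rw [← hρ]; exact irr_iff.1 σ.irr)
    have hact : act ρ e = 1 := by
      rw [← twR_act (τ := τ) (χ := χ) hN hMY hm, ← hρ]
      exact act_iff.2 σ.blk
    refine ⟨⟦mkIrr ρ hirr hact⟧, ?_⟩
    apply mk_eq_mk.2
    have h1 : Iso (Quotient.out (⟦mkIrr ρ hirr hact⟧ : IrX N e)).ρ ρ :=
      mk_eq_mk.1 (Quotient.out_eq (⟦mkIrr ρ hirr hact⟧ : IrX N e))
    have h2 : Iso (twR τ χ hN (Quotient.out (⟦mkIrr ρ hirr hact⟧ : IrX N e)).ρ)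
        (twR τ χ hN ρ) := (twR_iso hN hMY).2 h1
    rw [← hρ] at h2
    exact h2

theorem sum_tw [Fact p.Prime] [CharP k p] [IsAlgClosed k] (hm : (m : k) ≠ 0) (hN : N ≤ M)
    (hMY : M ≤ Y) (e : MonoidAlgebra k A) {a b : Tw τ}
    (ha : (a.g : A) ∈ Subgroup.normalizer (N : Set A))
    (hb : (b.g : A) ∈ Subgroup.normalizer (N : Set A)) :
    ∑ᶠ c : IrX (N.comap (Tw.pr τ)) (twA τ χ e),
        WittVector.teichmuller p (omX (N.comap (Tw.pr τ)) (twA τ χ e) c a b) =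
      WittVector.teichmuller p (χ (τ.det a.g b.g)) *
        ∑ᶠ c : IrX N e, WittVector.teichmuller p (omX N e c (a.g : A) b.g) := by
  classical
  have : Fintype (IrX N e) := Fintype.ofFinite _
  have key : ∀ c : IrX N e, omX (N.comap (Tw.pr τ)) (twA τ χ e) (irxMap τ χ hm hN hMY e c) a b =
      χ (τ.det a.g b.g) * omX N e c (a.g : A) b.g := by
    intro c
    have hirr : Irr' (Quotient.out c).ρ := irr_iff.1 (Quotient.out c).irr
    rw [omX, omX, ← om_tw hN hMY hirr ha hb]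
    exact om_iso (irr_iff.1 (Quotient.out (irxMap τ χ hm hN hMY e c)).irr)
      (mk_eq_mk.1 (Quotient.out_eq (irxMap τ χ hm hN hMY e c))) (mem_norm_comap ha)
      (mem_norm_comap hb)
  rw [← finsum_eq_of_bijective (irxMap τ χ hm hN hMY e) (irxMap_bij hm hN hMY e)
    (f := fun c => WittVector.teichmuller p (χ (τ.det a.g b.g)) *
      WittVector.teichmuller p (omX N e c (a.g : A) b.g)) (fun c => by
        rw [key c, map_mul]), finsum_eq_sum_of_fintype, finsum_eq_sum_of_fintype,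
    Finset.mul_sum]

theorem relIndex_comap' (hMY : M ≤ Y) (X : Subgroup A) :
    (X.comap (Tw.pr τ)).relIndex (M.comap (Tw.pr τ)) = X.relIndex M := by
  rw [Subgroup.relIndex_comap, Subgroup.map_comap_eq, Tw.pr_range, inf_eq_right.2 hMY]

theorem dl_tw [Fact p.Prime] [CharP k p] [IsAlgClosed k] [Fintype A] (hm : (m : k) ≠ 0)
    (hMY : M ≤ Y) (hn : Y ≤ Subgroup.normalizer (M : Set A)) {D : Finset (Subgroup A)}
    (hD : ∀ Q ∈ D, Q ≤ M) (f : MonoidAlgebra k A) (a b : Tw τ) :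
    dl p (M.comap (Tw.pr τ)) (smc τ D) (twA τ χ f) a b =
      WittVector.teichmuller p (χ (τ.det a.g b.g)) * dl p M D f (a.g : A) b.g := by
  classical
  rw [dl, dl, Finset.sum_filter, Finset.sum_filter, sum_smc hMY hD, Finset.mul_sum]
  refine Finset.sum_congr rfl fun σ hσ => ?_
  rw [InvAux.mem_Ch] at hσ
  have hσM : ∀ Q ∈ σ, Q ≤ M := fun Q hQ => hD Q (hσ.1 hQ)
  have hst : ∀ c : Tw τ, c ∈ stab ⊤ (smc τ σ) ↔ (c.g : A) ∈ stab ⊤ σ := by
    intro c
    rw [smc_stab_top hMY hn hσM]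
    show (c.g : A) ∈ stab Y σ ↔ _
    rw [mem_stab, mem_stab]
    exact and_congr_left fun _ => ⟨fun _ => Subgroup.mem_top _, fun _ => c.g.2⟩
  rw [hst, hst]
  by_cases h : (a.g : A) ∈ stab ⊤ σ ∧ (b.g : A) ∈ stab ⊤ σ
  · rw [if_pos h, if_pos h, smc_card hMY hσM, smc_stab hMY hn hσM, smc_sup hMY hσM,
      relIndex_comap' hMY]
    have hsM : σ.sup id ≤ M := Finset.sup_le hσM
    rw [twA_cS hMY hsM]
    have hsN : stab M σ ≤ M := fun x hx => (mem_stab.1 hx).1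
    have hnorm : ∀ c : Tw τ, (c.g : A) ∈ stab ⊤ σ →
        (c.g : A) ∈ Subgroup.normalizer (stab M σ : Set A) := by
      intro c hc
      rw [Subgroup.mem_normalizer_iff]
      intro x
      rw [mem_stab] at hc
      have h1 : x ∈ M ↔ (c.g : A) * x * (c.g : A)⁻¹ ∈ M :=
        Subgroup.mem_normalizer_iff.1 (hn c.g.2) x
      constructor
      · intro hx
        rw [mem_stab] at hx ⊢
        exact ⟨h1.1 hx.1, fun Q hQ => mul_mem (mul_mem (hc.2 Q hQ) (hx.2 Q hQ))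
          (inv_mem (hc.2 Q hQ))⟩
      · intro hx
        rw [mem_stab] at hx ⊢
        refine ⟨h1.2 hx.1, fun Q hQ => ?_⟩
        have h2 := mul_mem (mul_mem (inv_mem (hc.2 Q hQ)) (hx.2 Q hQ)) (hc.2 Q hQ)
        have e : (c.g : A)⁻¹ * ((c.g : A) * x * (c.g : A)⁻¹) * c.g = x := by group
        rwa [e] at h2
    rw [sum_tw hm hsN hMY _ (hnorm a h.1) (hnorm b h.2), mul_smul_comm]
  · rw [if_neg h, if_neg h, mul_zero]

end Pool.Agent.Lib.P0c8ca5.Mm
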