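import Mathlib
import Pool.Agent.Lib.P0c8ca5M.TwE
import Pool.Agent.Lib.P0c8ca5J.MinNor

/-!
# The weight equality in the twisted central extension
-/

set_option autoImplicit false

namespace Pool.Agent.Lib.P0c8ca5.Mm

open MonoidAlgebra Ps Bq Zz Gg

universe u v

variable {p : ℕ} {k : Type v} [Field k] {A : Type u} [Group A] {M Y : Subgroup A} {m : ℕ}
  [NeZero m] {τ : TD M Y m} {χ : AddChar (ZMod m) k} {N : Subgroup A}

/-- p-subgroups over `M` are copies -/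
theorem pgroup_smap (hpm : ¬ p ∣ m) [Fact p.Prime] {R : Subgroup (Tw τ)}
    (hR : R ≤ M.comap (Tw.pr τ)) (hp : IsPGroup p R) : R = smap τ (R.map (Tw.pr τ)) := by
  have key : ∀ a ∈ R, a.c = 0 := by
    intro a ha
    obtain ⟨n, hn⟩ := hp ⟨a, ha⟩
    have h1 : a ^ p ^ n = 1 := congrArg Subtype.val hn
    have h2 : ∀ j : ℕ, (a ^ j).c = (j : ZMod m) * a.c := by
      intro j
      induction j with
      | zero => rw [pow_zero, Nat.cast_zero, zero_mul]; rfl
      | succ j ih =>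
        rw [pow_succ, Tw.mul_c, ih, τ.j0 a.g (hR ha)]
        push_cast
        ring
    have h3 := h2 (p ^ n)
    rw [h1] at h3
    have h4 : IsUnit ((p ^ n : ℕ) : ZMod m) := by
      rw [ZMod.isUnit_iff_coprime]
      exact Nat.Coprime.pow_left n ((Nat.Prime.coprime_iff_not_dvd Fact.out).2 hpm)
    have h5 : ((p ^ n : ℕ) : ZMod m) * a.c = 0 := h3.symm
    exact (h4.mul_right_eq_zero).1 h5
  ext a
  constructor
  · intro ha
    exact ⟨⟨a, ha, rfl⟩, hR ha, key a ha⟩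
  · rintro ⟨⟨b, hb, hba⟩, -, h3⟩
    have e : b = a := Tw.ext (Subtype.ext hba) (by rw [key b hb, h3])
    rw [← e]
    exact hb

theorem map_smap (hMY : M ≤ Y) {P : Subgroup A} (hP : P ≤ M) :
    (smap τ P).map (Tw.pr τ) = P := by
  ext x
  constructor
  · rintro ⟨a, ha, rfl⟩
    exact ha.1
  · intro hx
    exact ⟨⟨⟨x, hMY (hP hx)⟩, 0⟩, ⟨hx, hP hx, rfl⟩, rfl⟩

theorem map_le_of_le {R : Subgroup (Tw τ)} {V : Subgroup A} (h : R ≤ V.comap (Tw.pr τ)) :
    R.map (Tw.pr τ) ≤ V := by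
  rintro _ ⟨a, ha, rfl⟩
  exact h ha

theorem map_cg (a : Tw τ) (R : Subgroup (Tw τ)) :
    (cg a R).map (Tw.pr τ) = cg (a.g : A) (R.map (Tw.pr τ)) := by
  ext x
  rw [Jj.mem_cj]
  constructor
  · rintro ⟨b, hb, rfl⟩
    rw [SetLike.mem_coe, Jj.mem_cj] at hb
    exact ⟨_, hb, rfl⟩
  · rintro ⟨b, hb, hbx⟩
    refine ⟨a * b * a⁻¹, ?_, ?_⟩
    · rw [SetLike.mem_coe, Jj.mem_cj]
      have e : a⁻¹ * (a * b * a⁻¹) * a = b := by group
      rw [e]
      exact hb
    · show (a.g : A) * Tw.pr τ b * (a.g : A)⁻¹ = x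
      rw [hbx]
      group

theorem fam_tw [Fact p.Prime] (hpm : ¬ p ∣ m) (hMY : M ≤ Y)
    (hn : Y ≤ Subgroup.normalizer (M : Set A)) {V : Subgroup A} (hVM : V ≤ M)
    {D : Finset (Subgroup A)} (hD : Fam p ⊤ V D) :
    Fam p ⊤ (V.comap (Tw.pr τ)) (smc τ D) := by
  have hDM : ∀ Q ∈ D, Q ≤ M := fun Q hQ => (hD.le Q hQ).trans hVM
  refine ⟨?_, ?_, ?_, ?_, ?_, ?_⟩
  · intro Q hQ
    obtain ⟨P, hP, rfl⟩ := mem_smc.1 hQ
    exact (smap_le_comap P).trans (Subgroup.comap_mono (hD.le P hP))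
  · intro Q hQ
    obtain ⟨P, hP, rfl⟩ := mem_smc.1 hQ
    exact smap_isPGroup (hD.pgrp P hP)
  · intro Q hQ
    obtain ⟨P, hP, rfl⟩ := mem_smc.1 hQ
    exact smap_ne_bot hMY (hDM P hP) (hD.ne P hP)
  · intro g _ Q hQ
    obtain ⟨P, hP, rfl⟩ := mem_smc.1 hQ
    rw [← smap_cg hn]
    exact mem_smc.2 ⟨_, hD.conj _ (Subgroup.mem_top _) P hP, rfl⟩
  · intro Q hQ R hR hRQ
    obtain ⟨P, hP, rfl⟩ := mem_smc.1 hQ
    obtain ⟨S, hS, rfl⟩ := mem_smc.1 hR
    rw [← smap_sup hMY (hDM P hP) (hDM S hS)]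
    refine mem_smc.2 ⟨_, hD.sup P hP S hS ?_, rfl⟩
    intro x hx
    have h1 := hRQ (show (⟨⟨x, hMY (hDM S hS hx)⟩, 0⟩ : Tw τ) ∈ smap τ S from
      ⟨hx, hDM S hS hx, rfl⟩)
    exact (mem_normalizer_smap hMY (hDM P hP) hn).1 h1
  · obtain ⟨cl, hcl⟩ := hD.plus
    refine ⟨fun R => smap τ (cl (R.map (Tw.pr τ))), fun R hRV hRp hR1 => ?_⟩
    have hRM : R ≤ M.comap (Tw.pr τ) := hRV.trans (Subgroup.comap_mono hVM)
    have hR := pgroup_smap hpm hRM hRp
    have h1 : R.map (Tw.pr τ) ≤ V := map_le_of_le hRV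
    have h2 : IsPGroup p (R.map (Tw.pr τ)) := hRp.map _
    have h3 : R.map (Tw.pr τ) ≠ ⊥ := by
      intro h0
      rw [h0, smap_bot] at hR
      exact hR1 hR
    obtain ⟨a1, a2, a3, a4⟩ := hcl _ h1 h2 h3
    refine ⟨mem_smc.2 ⟨_, a1, rfl⟩, ?_, ?_, ?_⟩
    · conv_lhs => rw [hR]
      exact smap_mono a2
    · intro g _
      show smap τ (cl ((cg g R).map (Tw.pr τ))) = cg g (smap τ (cl (R.map (Tw.pr τ))))
      rw [map_cg, a3 _ (Subgroup.mem_top _), smap_cg hn]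
    · intro Q hQ hRQ
      obtain ⟨P, hP, rfl⟩ := mem_smc.1 hQ
      have h4 : R.map (Tw.pr τ) ≤ Subgroup.normalizer (P : Set A) := by
        rintro _ ⟨a, ha, rfl⟩
        exact (mem_normalizer_smap hMY (hDM P hP) hn).1 (hRQ ha)
      have h5 := a4 P hP h4
      intro a ha
      exact (mem_normalizer_smap hMY (hDM P hP) hn).2 (h5 ha.1)

/-- the projection of a subgroup to `A / Z(A)` -/
def psi (X : Subgroup (Tw τ)) : ↥X →* A ⧸ Subgroup.center A :=
  ((QuotientGroup.mk' (Subgroup.center A)).comp (Tw.pr τ)).comp X.subtype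

theorem mem_ker_psi {X : Subgroup (Tw τ)} {x : ↥X} :
    x ∈ (psi X).rangeRestrict.ker ↔ (x.1.g : A) ∈ Subgroup.center A := by
  rw [MonoidHom.ker_rangeRestrict, MonoidHom.mem_ker]
  exact QuotientGroup.eq_one_iff _

theorem ker_psi_le (hZM : Subgroup.center A ≤ M) (X : Subgroup (Tw τ)) :
    (psi X).rangeRestrict.ker ≤ Subgroup.center ↥X := by
  intro x hx
  rw [mem_ker_psi] at hx
  have h1 : x.1 ∈ Subgroup.center (Tw τ) := Tw.comap_center_le le_rfl hZM hx
  rw [Subgroup.mem_center_iff]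
  intro y
  exact Subtype.ext (Subgroup.mem_center_iff.1 h1 y.1)

/-- the p-subgroups of the twisted extension are over their images -/
theorem ov_tw [Fact p.Prime] [Finite A] (hpm : ¬ p ∣ m)
    (hZp : ¬ p ∣ Nat.card (Subgroup.center A)) (hZM : Subgroup.center A ≤ M) (hMY : M ≤ Y)
    (X : Subgroup (Tw τ)) (P : Subgroup ↥X) :
    Ov p ((P.map X.subtype).map (Tw.pr τ)) P := by
  refine ⟨↥(psi X).range, inferInstance, (psi X).rangeRestrict,
    (psi X).rangeRestrict_surjective, ker_psi_le hZM X, ?_, ?_⟩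
  · intro hd
    have h1 : Nat.card (psi X).rangeRestrict.ker ∣
        Nat.card ((Subgroup.center A).comap (Tw.pr τ)) := by
      have h2 : ((psi X).rangeRestrict.ker).map X.subtype ≤ (Subgroup.center A).comap (Tw.pr τ) := by
        rintro _ ⟨x, hx, rfl⟩
        exact mem_ker_psi.1 hx
      have h3 : Nat.card ↥(((psi X).rangeRestrict.ker).map X.subtype) =
          Nat.card (psi X).rangeRestrict.ker :=
        (Nat.card_congr (((psi X).rangeRestrict.ker).equivMapOfInjective _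
          X.subtype_injective).toEquiv).symm
      rw [← h3]
      exact Subgroup.card_dvd_of_le h2
    rw [Tw.card_comap (hZM.trans hMY)] at h1
    rcases (Nat.Prime.dvd_mul Fact.out).1 (hd.trans h1) with h4 | h4
    · exact hZp h4
    · exact hpm h4
  · refine ⟨(psi X).range, MonoidHom.id _, Function.surjective_id, ?_⟩
    rintro _ ⟨x, hx, rfl⟩
    refine ⟨(psi X).rangeRestrict x, ?_, rfl⟩
    rw [SetLike.mem_coe, Subgroup.mem_subgroupOf]
    exact ⟨Tw.pr τ (x : Tw τ), ⟨(x : Tw τ), ⟨x, hx, rfl⟩, rfl⟩, rfl⟩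

/-- the subgroups of the twisted extension of a proper subgroup are small -/
theorem index_tw [Finite A] (hZM : Subgroup.center A ≤ M) (hMY : M ≤ Y)
    (hY : Y ≠ ⊤) (X : Subgroup (Tw τ)) :
    (Subgroup.center ↥X).index < (Subgroup.center A).index := by
  refine lt_of_le_of_lt (Fg.index_center_le_of (psi X).rangeRestrict_surjective
    (ker_psi_le hZM X)) ?_
  have h1 : (psi X).range ≠ ⊤ := by
    intro h0
    apply hY
    rw [eq_top_iff]
    intro x _
    have h2 : (QuotientGroup.mk' (Subgroup.center A)) x ∈ (psi X).range := by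
      rw [h0]; exact Subgroup.mem_top _
    obtain ⟨b, hb⟩ := h2
    have h3 : ((b.1.g : A))⁻¹ * x ∈ Subgroup.center A := by
      rw [← QuotientGroup.eq]
      exact hb
    have h4 := Y.mul_mem b.1.g.2 (hMY (hZM h3))
    rwa [mul_inv_cancel_left] at h4
  have h5 : Nat.card (psi X).range < Nat.card (A ⧸ Subgroup.center A) :=
    lt_of_le_of_ne (Subgroup.card_le_card_group _)
      (fun h => h1 (Subgroup.eq_top_of_card_eq _ h))
  exact h5

/-- the Brauer subgroups of the twisted block -/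
theorem hasBr_tw {P : Subgroup (Tw τ)} [Finite A] {b : MonoidAlgebra k A}
    (h : HasBr P (twA τ χ b)) : HasBr (P.map (Tw.pr τ)) b := by
  obtain ⟨x, hx, hbx⟩ := h
  refine ⟨(x.g : A), ?_, ?_⟩
  · rw [Subgroup.mem_centralizer_iff] at hx ⊢
    rintro _ ⟨y, hy, rfl⟩
    exact congrArg (Tw.pr τ) (hx y hy)
  · rw [coeff_twA] at hbx
    exact right_ne_zero_of_mul hbx

theorem weq_tw [Fact p.Prime] [CharP k p] [IsAlgClosed k] [Fintype A] {b : MonoidAlgebra k A}
    (hbelow : BelowP p k A b) (hpm : ¬ p ∣ m)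
    (hZp : ¬ p ∣ Nat.card (Subgroup.center A)) (hZM : Subgroup.center A ≤ M) (hMY : M ≤ Y)
    (hY : Y ≠ ⊤) (X : Subgroup (Tw τ)) {f : MonoidAlgebra k (Tw τ)} (hf : f ∈ fixAlg k X X)
    (hff : f * f = f)
    (hbr : ∀ P : Subgroup (Tw τ), P ≤ X → IsPGroup p P → HasBr P f → HasBr P (twA τ χ b)) :
    Cy.WEq p X f := by
  obtain ⟨hs, hi⟩ := mem_fixAlg.1 hf
  refine Cy.weq_of_blocks hs hi hff (fun g hg hgf => ?_)
  apply navarro_transport hg
  refine hbelow ↥X (index_tw hZM hMY hY X) _ (dn_isBlock hg) ?_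
  intro P' hP' hbr'
  have hPX : P'.map X.subtype ≤ X := by
    rintro _ ⟨y, _, rfl⟩
    exact y.2
  have hcomm : f * g = g * f := commute_of hs hg.invBy
  have hmul : g * f = g := by
    rcases hg.mul_eq hf hff with h | h
    · rw [hcomm] at h; exact absurd h hgf
    · rw [← hcomm]; exact h
  refine ⟨(P'.map X.subtype).map (Tw.pr τ), (hP'.map _).map _, ?_, ov_tw hpm hZp hZM hMY X P'⟩
  exact hasBr_tw (hbr _ hPX (hP'.map _) (hasBr_of_mul (hP'.map _) (hg.invBy.mono hPX)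
    (hi.mono hPX) hmul (RedAux.hasBr_up' hbr')))

/-- the alternating sum vanishes in the twisted central extension -/
theorem bl_tw [Fact p.Prime] [CharP k p] [IsAlgClosed k] [Fintype A] {V : Subgroup A}
    {c b : MonoidAlgebra k A} (h : Sit p V c b) {D : Finset (Subgroup A)} (hD : Fam p ⊤ V D)
    (hVM : V ≤ M) (hb : SuppIn M b) (hpm : ¬ p ∣ m) (hMY : M ≤ Y)
    (hn : Y ≤ Subgroup.normalizer (M : Set A)) (hY : Y ≠ ⊤) :
    Bl (⊤ : Subgroup (Tw τ)) (smc τ D) (twA τ χ b) = 0 := by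
  classical
  have hm : (m : k) ≠ 0 := by
    intro h0
    exact hpm ((CharP.cast_eq_zero_iff k p m).1 h0)
  have hZp := h.center_prime
  have hZM : Subgroup.center A ≤ M := h.zV.trans hVM
  have hfam := fam_tw (τ := τ) hpm hMY hn hVM hD
  obtain ⟨P, hPV, hPp, hP1, hbr⟩ := h.br
  have hPM : P ≤ M := hPV.trans hVM
  have hcM : SuppIn M c := h.cblk.suppIn.mono hVM
  have htop : ∀ X : Subgroup A, (⊤ : Subgroup (Tw τ)) = (⊤ : Subgroup A).comap (Tw.pr τ) :=
    fun _ => (Subgroup.comap_top _).symm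
  have hVn : (⊤ : Subgroup (Tw τ)) ≤
      Subgroup.normalizer ((V.comap (Tw.pr τ) : Subgroup (Tw τ)) : Set (Tw τ)) := by
    have := h.nV
    have h1 : (V.comap (Tw.pr τ)).Normal := h.nV.comap _
    rw [Subgroup.normalizer_eq_top]
  have hci : InvBy (⊤ : Subgroup (Tw τ)) (twA τ χ c) := by
    rw [htop M]
    exact twA_invBy hn hcM h.cinv
  have hfi : InvBy (⊤ : Subgroup (Tw τ)) (twA τ χ b) := by
    rw [htop M]
    exact twA_invBy hn hb h.blk.invBy
  have hff : twA τ χ b * twA τ χ b = twA τ χ b := by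
    rw [twA_mul hMY hm hb, h.blk.idem]
  have hf : twA τ χ b ∈ fixAlg k (⊤ : Subgroup (Tw τ)) ⊤ :=
    mem_fixAlg.2 ⟨fun _ _ => Subgroup.mem_top _, hfi⟩
  have hcf : twA τ χ c * twA τ χ b = twA τ χ b := by
    rw [twA_mul hMY hm hcM, h.cb]
  rw [← hfam.bl_eq le_top hVn (twA_block hm hVM hMY hn h.cblk) hci
    ((smap_le_comap P).trans (Subgroup.comap_mono hPV)) (smap_isPGroup hPp)
    (smap_ne_bot hMY hPM hP1) (twA_hasBr hm hMY hPM (hcM.mono hMY) hbr) hf hcf ?_]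
  · have h1 := weq_tw h.below hpm hZp hZM hMY hY ⊤ hf hff (fun P _ _ hP => hP)
    unfold Cy.WEq at h1
    rw [h1, sub_self]
  · intro σ hσ hne
    obtain ⟨hσD, hch⟩ := InvAux.mem_Ch.1 hσ
    have hSσ : σ.sup id ∈ σ := sup_mem_chain hne hch
    have hctx : Ctx p ⊤ (stab ⊤ σ) (σ.sup id) (twA τ χ b) :=
      { hHX := inf_le_left
        hS := hfam.pgrp _ (hσD hSσ)
        hHS := fun x hx => (mem_stab.1 hx).2 _ hSσ
        hCS := by
          intro x hx
          rw [mem_stab]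
          refine ⟨hx.1, fun R hR => ?_⟩
          have hRS : R ≤ σ.sup id := Finset.le_sup (f := id) hR
          exact Subgroup.centralizer_le_normalizer _ (Subgroup.centralizer_le hRS hx.2)
        supp := (mem_fixAlg.1 hf).1
        inv := (mem_fixAlg.1 hf).2 }
    exact weq_tw h.below hpm hZp hZM hMY hY _ (mem_fixAlg.2 ⟨hctx.cS_supp, hctx.cS_inv⟩)
      (hctx.cS_idem le_top hff) (fun P _ _ hP => hasBr_cS hP)

end Pool.Agent.Lib.P0c8ca5.Mm
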