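import Mathlib
import Pool.Agent.Lib.P0c8ca5M.TwF
import Pool.Agent.Lib.P0c8ca5G.PrC

/-!
# The twisted sums of the values of the pairs vanish
-/

set_option autoImplicit false

namespace Pool.Agent.Lib.P0c8ca5.Mm

open MonoidAlgebra Ps Bq Zz Gg

universe u v

variable {p : ℕ} {k : Type v} [Field k] {A : Type u} [Group A] {M Y : Subgroup A} {m : ℕ}
  [NeZero m] {τ : TD M Y m} {χ : AddChar (ZMod m) k}

theorem sum_det [Fact p.Prime] [CharP k p] [IsAlgClosed k] [Fintype A] [Fintype ↥Y]
    {V : Subgroup A}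
    {c b : MonoidAlgebra k A} (h : Sit p V c b) {D : Finset (Subgroup A)} (hD : Fam p ⊤ V D)
    (hM : M.Normal) (hVM : V ≤ M) (hb : SuppIn M b)
    (hab : ∀ x y : A, y * x * y⁻¹ * x⁻¹ ∈ M) (hp : ¬ p ∣ M.index) (hMY : M ≤ Y) (hY : Y ≠ ⊤)
    (hpm : ¬ p ∣ m) (τ : TD M Y m) (χ : AddChar (ZMod m) k) :
    ∑ u : ↥Y, ∑ v : ↥Y, WittVector.teichmuller p (χ (τ.det u v)) *
      dl p M D b (u : A) (v : A) = 0 := by
  classical
  have hm : (m : k) ≠ 0 := by
    intro h0
    exact hpm ((CharP.cast_eq_zero_iff k p m).1 h0)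
  have hn : Y ≤ Subgroup.normalizer (M : Set A) := by
    rw [Subgroup.normalizer_eq_top]
    exact le_top
  have hDM : ∀ Q ∈ D, Q ≤ M := fun Q hQ => (hD.le Q hQ).trans hVM
  have hfam := fam_tw (τ := τ) hpm hMY hn hVM hD
  have h0 := bl_tw (τ := τ) (χ := χ) h hD hVM hb hpm hMY hn hY
  have hMn : (M.comap (Tw.pr τ)).Normal := hM.comap _
  have htop : (⊤ : Subgroup (Tw τ)) = (⊤ : Subgroup A).comap (Tw.pr τ) :=
    (Subgroup.comap_top _).symm
  have hfi : InvBy (⊤ : Subgroup (Tw τ)) (twA τ χ b) := by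
    rw [htop]
    exact twA_invBy hn hb h.blk.invBy
  have hff : twA τ χ b * twA τ χ b = twA τ χ b := by
    rw [twA_mul hMY hm hb, h.blk.idem]
  have h1 := bl_pairs (p := p) (M := M.comap (Tw.pr τ)) (Y := ⊤) le_top (by
      rw [Subgroup.normalizer_eq_top]) (D := smc τ D)
    (fun Q hQ => ⟨le_top, hfam.pgrp Q hQ⟩) (twA_suppIn hb) hfi hff
  rw [h0, Int.cast_zero, mul_zero] at h1
  -- all pairs occur
  have h2 : (prs (M.comap (Tw.pr τ)) (⊤ : Subgroup (Tw τ))).filter
      (fun z => Prm p (M.comap (Tw.pr τ)) z.1) = Finset.univ := by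
    ext z
    simp only [Finset.mem_filter, mem_prs, Finset.mem_univ, iff_true]
    refine ⟨⟨Subgroup.mem_top _, Subgroup.mem_top _, hab _ _⟩, M.index, hp, ?_⟩
    show ((z.1 ^ M.index : Tw τ).g : A) ∈ M
    have h3 : ((z.1 ^ M.index : Tw τ).g : A) = (z.1.g : A) ^ M.index := map_pow (Tw.pr τ) _ _
    rw [h3]
    exact M.pow_index_mem _
  rw [h2, ← Finset.univ_product_univ, Finset.sum_product] at h1
  have h3 : ∀ a b' : Tw τ, dl p (M.comap (Tw.pr τ)) (smc τ D) (twA τ χ b) a b' =
      WittVector.teichmuller p (χ (τ.det a.g b'.g)) * dl p M D b (a.g : A) b'.g :=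
    fun a b' => dl_tw hm hMY hn hDM b a b'
  simp only [h3] at h1
  -- sum over the fibres
  have h4 : ∀ F : ↥Y → WittVector p k, ∑ a : Tw τ, F a.g = (m : WittVector p k) * ∑ u : ↥Y, F u := by
    intro F
    rw [← (Tw.equivProd τ).symm.sum_comp, Fintype.sum_prod_type]
    have h6 : ∀ (g : ↥Y) (c : ZMod m), F ((Tw.equivProd τ).symm (g, c)).g = F g :=
      fun _ _ => rfl
    rw [Finset.sum_congr rfl fun g _ => Finset.sum_congr rfl fun c _ => h6 g c]
    simp only [Finset.sum_const, Finset.card_univ, ZMod.card, nsmul_eq_mul]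
    rw [← Finset.mul_sum]
  have h5 : ∀ a : Tw τ, ∑ b' : Tw τ, WittVector.teichmuller p (χ (τ.det a.g b'.g)) *
      dl p M D b (a.g : A) b'.g = (m : WittVector p k) * ∑ v : ↥Y,
        WittVector.teichmuller p (χ (τ.det a.g v)) * dl p M D b (a.g : A) v := fun a =>
    h4 (fun v => WittVector.teichmuller p (χ (τ.det a.g v)) * dl p M D b (a.g : A) v)
  rw [Finset.sum_congr rfl fun a _ => h5 a, ← Finset.mul_sum,
    h4 (fun u => ∑ v : ↥Y, WittVector.teichmuller p (χ (τ.det u v)) * dl p M D b (u : A) v)] at h1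
  have hmW : (m : WittVector p k) ≠ 0 := by
    intro h6
    have h7 : ((m : ℤ) : WittVector p k) = 0 := by
      rw [Int.cast_natCast]
      exact h6
    have h8 := int_inj p h7
    exact NeZero.ne m (by exact_mod_cast h8)
  have h9 : (m : WittVector p k) * ((m : WittVector p k) * ∑ u : ↥Y, ∑ v : ↥Y,
      WittVector.teichmuller p (χ (τ.det u v)) * dl p M D b (u : A) v) = 0 := h1.symm
  rcases mul_eq_zero.1 h9 with h10 | h10
  · exact absurd h10 hmW
  · rcases mul_eq_zero.1 h10 with h11 | h11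
    · exact absurd h11 hmW
    · exact h11

/-- the pairs of determinant `1` -/
theorem sum_det_one [Fact p.Prime] [CharP k p] [IsAlgClosed k] [Fintype A] [Fintype ↥Y]
    {V : Subgroup A}
    {c b : MonoidAlgebra k A} (h : Sit p V c b) {D : Finset (Subgroup A)} (hD : Fam p ⊤ V D)
    (hM : M.Normal) (hVM : V ≤ M) (hb : SuppIn M b)
    (hab : ∀ x y : A, y * x * y⁻¹ * x⁻¹ ∈ M) (hp : ¬ p ∣ M.index) (hMY : M ≤ Y) (hY : Y ≠ ⊤)
    (hpm : ¬ p ∣ m) (τ : TD M Y m) :
    ∑ u : ↥Y, ∑ v : ↥Y, (if τ.det u v = 1 then dl p M D b (u : A) (v : A) else 0) = 0 := by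
  classical
  -- a primitive root of unity
  have hm : (m : k) ≠ 0 := by
    intro h0
    exact hpm ((CharP.cast_eq_zero_iff k p m).1 h0)
  have : NeZero (m : k) := ⟨hm⟩
  obtain ⟨ζ, hζ⟩ : ∃ ζ : k, IsPrimitiveRoot ζ m := by
    have := HasEnoughRootsOfUnity.exists_primitiveRoot k m
    exact this
  let χ : ℕ → AddChar (ZMod m) k := fun r =>
    AddChar.zmodChar m (ζ := ζ ^ r) (by rw [← pow_mul, mul_comm, pow_mul, hζ.pow_eq_one, one_pow])
  have hχ : ∀ r (d : ZMod m), χ r d = (ζ ^ d.val) ^ r := by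
    intro r d
    show AddChar.zmodChar m _ d = _
    rw [AddChar.zmodChar_apply, ← pow_mul, ← pow_mul, mul_comm]
  let w : WittVector p k := WittVector.teichmuller p ζ
  have hw : IsPrimitiveRoot w m := hζ.map_of_injective (fun a b hab' => by
    have h1 := congrArg (fun z => WittVector.coeff z 0) hab'
    simpa [WittVector.teichmuller_coeff_zero] using h1)
  have key : ∀ r, ∑ u : ↥Y, ∑ v : ↥Y, (w ^ (τ.det u v).val) ^ r * dl p M D b (u : A) (v : A) = 0 := by
    intro r
    rw [← sum_det h hD hM hVM hb hab hp hMY hY hpm τ (χ r)]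
    refine Finset.sum_congr rfl fun u _ => Finset.sum_congr rfl fun v _ => ?_
    rw [hχ, map_pow, map_pow]
  have hmpos : 0 < m := Nat.pos_of_ne_zero (NeZero.ne m)
  -- the inverse of `w`
  let w' : WittVector p k := w ^ (m - 1)
  have hww : w' * w = 1 := by
    show w ^ (m - 1) * w = 1
    rw [← pow_succ, Nat.sub_add_cancel hmpos, hw.pow_eq_one]
  have hgeo : ∀ d : ZMod m, ∑ r ∈ Finset.range m, (w' * w ^ d.val) ^ r =
      if d = 1 then (m : WittVector p k) else 0 := by
    intro d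
    by_cases hd : d = 1
    · rw [if_pos hd]
      have h1 : w' * w ^ d.val = 1 := by
        have h2 : w ^ d.val = w := by
          rw [hd]
          rcases Nat.lt_or_ge 1 m with h3 | h3
          · have : Fact (1 < m) := ⟨h3⟩
            rw [ZMod.val_one, pow_one]
          · have h4 : m = 1 := le_antisymm h3 hmpos
            have h5 : w = 1 := by
              have h6 := hw.pow_eq_one
              rwa [h4, pow_one] at h6
            rw [h5, one_pow]
        rw [h2, hww]
      rw [h1]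
      simp
    · rw [if_neg hd]
      have h1 : w' * w ^ d.val - 1 ≠ 0 := by
        intro h2
        apply hd
        have h3 : w' * w ^ d.val = w' * w := by rw [hww]; exact sub_eq_zero.1 h2
        have h4 : w' ≠ 0 := left_ne_zero_of_mul (a := w') (b := w) (by rw [hww]; exact one_ne_zero)
        have h5 : w ^ d.val = w ^ 1 := by rw [pow_one]; exact mul_left_cancel₀ h4 h3
        rcases Nat.lt_or_ge 1 m with h6 | h6
        · have h7 := hw.pow_inj (ZMod.val_lt d) h6 h5
          have h8 : ((d.val : ℕ) : ZMod m) = ((1 : ℕ) : ZMod m) := by rw [h7]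
          rwa [ZMod.natCast_zmod_val, Nat.cast_one] at h8
        · have h7 : m = 1 := le_antisymm h6 hmpos
          subst h7
          exact Subsingleton.elim _ _
      have h2 : (w' * w ^ d.val - 1) * ∑ r ∈ Finset.range m, (w' * w ^ d.val) ^ r = 0 := by
        rw [mul_geom_sum]
        have h3 : (w' * w ^ d.val) ^ m = 1 := by
          show (w ^ (m - 1) * w ^ d.val) ^ m = 1
          rw [← pow_add, ← pow_mul, mul_comm, pow_mul, hw.pow_eq_one, one_pow]
        rw [h3, sub_self]
      rcases mul_eq_zero.1 h2 with h3 | h3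
      · exact absurd h3 h1
      · exact h3
  have h7 : (m : WittVector p k) * ∑ u : ↥Y, ∑ v : ↥Y,
      (if τ.det u v = 1 then dl p M D b (u : A) (v : A) else 0) = 0 := by
    have h8 : ∑ r ∈ Finset.range m, w' ^ r * ∑ u : ↥Y, ∑ v : ↥Y,
        (w ^ (τ.det u v).val) ^ r * dl p M D b (u : A) (v : A) = 0 := by
      refine Finset.sum_eq_zero fun r _ => ?_
      rw [key r, mul_zero]
    refine Eq.trans ?_ h8
    simp only [Finset.mul_sum]
    symm
    rw [Finset.sum_comm]
    refine Finset.sum_congr rfl fun u _ => ?_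
    rw [Finset.sum_comm]
    refine Finset.sum_congr rfl fun v _ => ?_
    have h9 : ∀ r, w' ^ r * ((w ^ (τ.det u v).val) ^ r * dl p M D b (u : A) (v : A)) =
        (w' * w ^ (τ.det u v).val) ^ r * dl p M D b (u : A) (v : A) := by
      intro r
      rw [mul_pow, mul_assoc]
    rw [Finset.sum_congr rfl fun r _ => h9 r, ← Finset.sum_mul, hgeo]
    by_cases hd : τ.det u v = 1
    · rw [if_pos hd, if_pos hd]
    · rw [if_neg hd, if_neg hd, zero_mul, mul_zero]
  have hmW : (m : WittVector p k) ≠ 0 := by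
    intro h6
    have h7 : ((m : ℤ) : WittVector p k) = 0 := by
      rw [Int.cast_natCast]
      exact h6
    have h8 := int_inj p h7
    exact NeZero.ne m (by exact_mod_cast h8)
  rcases mul_eq_zero.1 h7 with h8 | h8
  · exact absurd h8 hmW
  · exact h8

end Pool.Agent.Lib.P0c8ca5.Mm
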