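import Mathlib
import Pool.Agent.Lib.P0c8ca5M.TwG
import Pool.Agent.Lib.P0c8ca5M.IsoC

/-!
# The isolation of the pairs that do not generate the group
-/

set_option autoImplicit false

namespace Pool.Agent.Lib.P0c8ca5.Mm

open MonoidAlgebra Ps Bq Zz Gg Hh

universe u v

variable {p : ℕ} {k : Type v} [Field k] {A : Type u} [Group A] {M : Subgroup A}

theorem det_congr {Y : Subgroup A} {m : ℕ} (τ : TD M Y m) {u u' v v' : ↥Y}
    (hu : (u : A) * (u' : A)⁻¹ ∈ M) (hv : (v : A) * (v' : A)⁻¹ ∈ M) :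
    τ.det u v = τ.det u' v' := by
  have key : ∀ (f : ↥Y → ZMod m) (_ : ∀ g h, f (g * h) = f g + f h)
      (_ : ∀ g : ↥Y, (g : A) ∈ M → f g = 0) (a b : ↥Y), (a : A) * (b : A)⁻¹ ∈ M → f a = f b := by
    intro f h1 h2 a b hab
    have e : a = (a * b⁻¹) * b := by group
    rw [e, h1, h2 _ hab, zero_add]
  rw [TD.det, TD.det, key τ.i τ.im τ.i0 u u' hu, key τ.i τ.im τ.i0 v v' hv,
    key τ.j τ.jm τ.j0 u u' hu, key τ.j τ.jm τ.j0 v v' hv]

/-- the sum over the pairs of cosets -/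
theorem sum_T1 [Fact p.Prime] [Fintype A] {Y : Subgroup A} [Fintype ↥Y] (hMY : M ≤ Y)
    (D : Finset (Subgroup A)) (f : MonoidAlgebra k A) (P : ↥Y → ↥Y → Prop)
    [∀ u v, Decidable (P u v)]
    (hP : ∀ u u' v v' : ↥Y, (u : A) * (u' : A)⁻¹ ∈ M → (v : A) * (v' : A)⁻¹ ∈ M →
      (P u v ↔ P u' v')) :
    ∑ u : ↥Y, ∑ v : ↥Y, (if P u v then T1 p M D f (u : A) (v : A) else 0) =
      (Nat.card M : WittVector p k) * ((Nat.card M : WittVector p k) *
        ∑ u : ↥Y, ∑ v : ↥Y, (if P u v then dl p M D f (u : A) (v : A) else 0)) := by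
  classical
  -- sums over cosets
  have h1 : ∀ (u : ↥Y) (F : A → WittVector p k), ∑ a ∈ csF M (u : A), F a =
      ∑ a : ↥Y, if (a : A) * (u : A)⁻¹ ∈ M then F a else 0 := by
    intro u F
    rw [← Finset.sum_filter]
    symm
    apply Finset.sum_bij (fun (a : ↥Y) _ => (a : A))
    · intro a ha
      rw [mem_csF]
      exact (Finset.mem_filter.1 ha).2
    · intro a _ b _ h
      exact Subtype.ext h
    · intro a ha
      rw [mem_csF] at ha
      have h2 : a ∈ Y := by
        have h3 := Y.mul_mem (hMY ha) u.2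
        rwa [inv_mul_cancel_right] at h3
      exact ⟨⟨a, h2⟩, Finset.mem_filter.2 ⟨Finset.mem_univ _, ha⟩, rfl⟩
    · intro a _
      rfl
  have h2 : ∀ a : ↥Y, ((Finset.univ.filter fun u : ↥Y => (a : A) * (u : A)⁻¹ ∈ M).card :
      WittVector p k) = Nat.card M := by
    intro a
    congr 1
    rw [Nat.card_eq_fintype_card, ← Finset.card_univ]
    symm
    refine Finset.card_bij (fun (z : M) _ => (⟨(z : A), hMY z.2⟩ : ↥Y)⁻¹ * a) ?_ ?_ ?_
    · intro z _
      rw [Finset.mem_filter]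
      refine ⟨Finset.mem_univ _, ?_⟩
      show (a : A) * ((z : A)⁻¹ * (a : A))⁻¹ ∈ M
      have e : (a : A) * ((z : A)⁻¹ * (a : A))⁻¹ = z := by group
      rw [e]
      exact z.2
    · intro z _ z' _ h
      have h3 := congrArg (fun t : ↥Y => (t : A)) h
      have h4 : (z : A)⁻¹ * (a : A) = (z' : A)⁻¹ * (a : A) := h3
      exact Subtype.ext (inv_injective (mul_right_cancel h4))
    · intro u hu
      refine ⟨⟨(a : A) * (u : A)⁻¹, (Finset.mem_filter.1 hu).2⟩, Finset.mem_univ _, ?_⟩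
      apply Subtype.ext
      show ((a : A) * (u : A)⁻¹)⁻¹ * a = u
      group
  have h3 : ∀ u v : ↥Y, (if P u v then T1 p M D f (u : A) (v : A) else 0) =
      ∑ a : ↥Y, ∑ b : ↥Y, if (a : A) * (u : A)⁻¹ ∈ M ∧ (b : A) * (v : A)⁻¹ ∈ M then
        (if P a b then dl p M D f (a : A) (b : A) else 0) else 0 := by
    intro u v
    by_cases hPuv : P u v
    · rw [if_pos hPuv, T1, h1]
      refine Finset.sum_congr rfl fun a _ => ?_
      by_cases ha : (a : A) * (u : A)⁻¹ ∈ M
      · rw [if_pos ha, h1]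
        refine Finset.sum_congr rfl fun b _ => ?_
        by_cases hb : (b : A) * (v : A)⁻¹ ∈ M
        · rw [if_pos hb, if_pos ⟨ha, hb⟩, if_pos ((hP a u b v ha hb).2 hPuv)]
        · rw [if_neg hb, if_neg fun h => hb h.2]
      · rw [if_neg ha]
        symm
        refine Finset.sum_eq_zero fun b _ => ?_
        rw [if_neg fun h => ha h.1]
    · rw [if_neg hPuv]
      symm
      refine Finset.sum_eq_zero fun a _ => Finset.sum_eq_zero fun b _ => ?_
      by_cases hab : (a : A) * (u : A)⁻¹ ∈ M ∧ (b : A) * (v : A)⁻¹ ∈ M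
      · rw [if_pos hab, if_neg fun h => hPuv ((hP a u b v hab.1 hab.2).1 h)]
      · rw [if_neg hab]
  simp only [h3]
  -- exchange the sums
  have h4 : ∑ u : ↥Y, ∑ v : ↥Y, ∑ a : ↥Y, ∑ b : ↥Y,
      (if (a : A) * (u : A)⁻¹ ∈ M ∧ (b : A) * (v : A)⁻¹ ∈ M then
        (if P a b then dl p M D f (a : A) (b : A) else 0) else 0) =
      ∑ a : ↥Y, ∑ b : ↥Y, ∑ u : ↥Y, ∑ v : ↥Y,
      (if (a : A) * (u : A)⁻¹ ∈ M ∧ (b : A) * (v : A)⁻¹ ∈ M then
        (if P a b then dl p M D f (a : A) (b : A) else 0) else 0) := by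
    calc _ = ∑ u : ↥Y, ∑ a : ↥Y, ∑ v : ↥Y, ∑ b : ↥Y,
        (if (a : A) * (u : A)⁻¹ ∈ M ∧ (b : A) * (v : A)⁻¹ ∈ M then
          (if P a b then dl p M D f (a : A) (b : A) else 0) else 0) :=
          Finset.sum_congr rfl fun u _ => Finset.sum_comm
      _ = ∑ a : ↥Y, ∑ u : ↥Y, ∑ v : ↥Y, ∑ b : ↥Y,
        (if (a : A) * (u : A)⁻¹ ∈ M ∧ (b : A) * (v : A)⁻¹ ∈ M then
          (if P a b then dl p M D f (a : A) (b : A) else 0) else 0) := Finset.sum_comm
      _ = ∑ a : ↥Y, ∑ u : ↥Y, ∑ b : ↥Y, ∑ v : ↥Y,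
        (if (a : A) * (u : A)⁻¹ ∈ M ∧ (b : A) * (v : A)⁻¹ ∈ M then
          (if P a b then dl p M D f (a : A) (b : A) else 0) else 0) :=
          Finset.sum_congr rfl fun a _ => Finset.sum_congr rfl fun u _ => Finset.sum_comm
      _ = _ := Finset.sum_congr rfl fun a _ => Finset.sum_comm
  rw [h4, Finset.mul_sum, Finset.mul_sum]
  refine Finset.sum_congr rfl fun a _ => ?_
  rw [Finset.mul_sum, Finset.mul_sum]
  refine Finset.sum_congr rfl fun b _ => ?_
  have h5 : ∀ (z : WittVector p k), ∑ u : ↥Y, ∑ v : ↥Y,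
      (if (a : A) * (u : A)⁻¹ ∈ M ∧ (b : A) * (v : A)⁻¹ ∈ M then z else 0) =
      (Nat.card M : WittVector p k) * ((Nat.card M : WittVector p k) * z) := by
    intro z
    have h6 : ∀ u v : ↥Y, (if (a : A) * (u : A)⁻¹ ∈ M ∧ (b : A) * (v : A)⁻¹ ∈ M then z else 0) =
        if (a : A) * (u : A)⁻¹ ∈ M then (if (b : A) * (v : A)⁻¹ ∈ M then z else 0) else 0 := by
      intro u v
      by_cases h7 : (a : A) * (u : A)⁻¹ ∈ M
      · rw [if_pos h7]
        by_cases h8 : (b : A) * (v : A)⁻¹ ∈ M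
        · rw [if_pos h8, if_pos ⟨h7, h8⟩]
        · rw [if_neg h8, if_neg fun h => h8 h.2]
      · rw [if_neg h7, if_neg fun h => h7 h.1]
    simp only [h6]
    have h7 : ∀ u : ↥Y, ∑ v : ↥Y, (if (a : A) * (u : A)⁻¹ ∈ M then
        (if (b : A) * (v : A)⁻¹ ∈ M then z else 0) else 0) =
        if (a : A) * (u : A)⁻¹ ∈ M then (Nat.card M : WittVector p k) * z else 0 := by
      intro u
      by_cases h8 : (a : A) * (u : A)⁻¹ ∈ M
      · simp only [if_pos h8]
        rw [← Finset.sum_filter, Finset.sum_const, nsmul_eq_mul, h2]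
      · simp only [if_neg h8, Finset.sum_const_zero]
    simp only [h7]
    rw [← Finset.sum_filter, Finset.sum_const, nsmul_eq_mul, h2]
  exact h5 _

/-- **isolation**: the values of the pairs that do not generate `A` modulo `M` vanish -/
theorem Sit.iso [Fact p.Prime] [CharP k p] [IsAlgClosed k] [Fintype A] {V : Subgroup A}
    {c b : MonoidAlgebra k A} (h : Sit p V c b) {D : Finset (Subgroup A)} (hD : Fam p ⊤ V D)
    (hM : M.Normal) (hVM : V ≤ M) (hb : SuppIn M b)
    (hab : ∀ x y : A, y * x * y⁻¹ * x⁻¹ ∈ M) (hp : ¬ p ∣ M.index) (x y : A)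
    (hne : M ⊔ Subgroup.closure {x, y} ≠ ⊤) : T1 p M D b x y = 0 := by
  classical
  induction hn : Nat.card ↥(M ⊔ Subgroup.closure {x, y}) using Nat.strong_induction_on
    generalizing x y with
  | _ n ih =>
  have hMY : M ≤ M ⊔ Subgroup.closure {x, y} := le_sup_left
  obtain ⟨m, _, τ, X, Z, hX, hZ, hpm, h1, h2, h3, h4, hT⟩ :=
    exists_td (p := p) (k := k) hM hab x y hp
  have hs := sum_det_one h hD hM hVM hb hab hp hMY hne hpm τ
  have hs2 := sum_T1 (p := p) (k := k) hMY D b (fun u v => τ.det u v = 1)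
    (fun u u' v v' hu hv => by rw [det_congr τ hu hv])
  rw [hs, mul_zero, mul_zero] at hs2
  -- the pairs of determinant one have the value of `(x, y)` or `0`
  let G : ↥(M ⊔ Subgroup.closure {x, y}) → ↥(M ⊔ Subgroup.closure {x, y}) → Prop :=
    fun u v => τ.det u v = 1 ∧
      M ⊔ Subgroup.closure {(u : A), (v : A)} = M ⊔ Subgroup.closure {x, y}
  have h5 : ∀ u v : ↥(M ⊔ Subgroup.closure {x, y}),
      (if τ.det u v = 1 then T1 p M D b (u : A) (v : A) else 0) =
        if G u v then T1 p M D b x y else 0 := by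
    intro u v
    by_cases hd : τ.det u v = 1
    · rw [if_pos hd]
      by_cases hg : M ⊔ Subgroup.closure {(u : A), (v : A)} = M ⊔ Subgroup.closure {x, y}
      · rw [if_pos ⟨hd, hg⟩]
        exact hT D b u v hg hd
      · rw [if_neg fun h => hg h.2]
        have hle : M ⊔ Subgroup.closure {(u : A), (v : A)} ≤ M ⊔ Subgroup.closure {x, y} := by
          refine sup_le le_sup_left ?_
          rw [Subgroup.closure_le]
          rintro z (rfl | rfl)
          · exact u.2
          · exact v.2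
        have hlt := lt_of_le_of_ne hle hg
        refine ih _ ?_ (u : A) (v : A) ?_ rfl
        · rw [← hn]
          exact lt_of_le_of_ne (Subgroup.card_le_of_le hle) fun h0 =>
            hg (Subgroup.eq_of_le_of_card_ge hle h0.ge)
        · intro h0
          exact hne (top_le_iff.1 (h0 ▸ hle))
    · rw [if_neg hd, if_neg fun h => hd h.1]
  have h6 : ∑ u : ↥(M ⊔ Subgroup.closure {x, y}), ∑ v : ↥(M ⊔ Subgroup.closure {x, y}),
      (if G u v then T1 p M D b x y else 0) = 0 := by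
    refine Eq.trans ?_ hs2
    exact Finset.sum_congr rfl fun u _ => Finset.sum_congr rfl fun v _ => (h5 u v).symm
  have h7 : ∑ z : ↥(M ⊔ Subgroup.closure {x, y}) × ↥(M ⊔ Subgroup.closure {x, y}),
      (if G z.1 z.2 then T1 p M D b x y else 0) = 0 := by
    rw [Fintype.sum_prod_type]
    exact h6
  rw [← Finset.sum_filter, Finset.sum_const, nsmul_eq_mul] at h7
  have hGx : G X Z := by
    refine ⟨?_, by rw [hX, hZ]⟩
    rw [TD.det, h1, h2, h3, h4]
    ring
  have hpos : (Finset.univ.filter fun z : ↥(M ⊔ Subgroup.closure {x, y}) ×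
      ↥(M ⊔ Subgroup.closure {x, y}) => G z.1 z.2).card ≠ 0 := by
    rw [Finset.card_ne_zero]
    exact ⟨(X, Z), Finset.mem_filter.2 ⟨Finset.mem_univ _, hGx⟩⟩
  rcases mul_eq_zero.1 h7 with h8 | h8
  · exfalso
    apply hpos
    have h9 : (((Finset.univ.filter fun z : ↥(M ⊔ Subgroup.closure {x, y}) ×
      ↥(M ⊔ Subgroup.closure {x, y}) => G z.1 z.2).card : ℤ) : WittVector p k) = 0 := by
      rw [Int.cast_natCast]
      exact h8
    have h10 := int_inj p h9
    exact_mod_cast h10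
  · exact h8

end Pool.Agent.Lib.P0c8ca5.Mm
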